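import Pool.Agent.D0H1.DS.Large
import Pool.Agent.TH121.KT.Final

/-!
# Dominant slopes: relations with numbers with narrow slopes
-/

set_option autoImplicit false
set_option linter.unusedSectionVars false

namespace Pool.Agent.D0H1.DS

open NumberField Polynomial Pool.Agent.TH121.KT Pool.Agent.N179.TL

noncomputable section

variable {K : Type} [Field K] [NumberField K] [IsCMField K] {p : ℕ} [Fact p.Prime]
  {ι : Qb →+* PadicAlgCl p} {α : K}

/-- powers of numbers with narrow slopes -/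
def PPn (p : ℕ) [Fact p.Prime] (ι : Qb →+* PadicAlgCl p) (K : Type) [Field K] [NumberField K]
    [IsCMField K] (ε : ℝ) {Ω : Type*} [Field Ω] [CharZero Ω] (m : ℕ) (ν : Ω) : Prop :=
  ∃ (m₀ t : ℕ) (ν₀ : Ω), 0 < t ∧ m = m₀ * t ∧ ν = ν₀ ^ t ∧ HasNarrowSlopes p m₀ ι K ε ν₀

/-- the complex conjugation of the algebraic numbers -/
theorem exists_conj (K : Type) [Field K] [NumberField K] [IsCMField K] :
    ∃ h : GQ, ∀ (σ : K →+* Qb) (x : K), h (σ x) = σ (IsCMField.complexConj K x) := by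
  let φ : Qb →+* ℂ := (IsAlgClosed.lift : Qb →ₐ[ℚ] ℂ).toRingHom
  let _ : Algebra Qb ℂ := φ.toAlgebra
  have hst : IsScalarTower ℚ Qb ℂ := IsScalarTower.of_algebraMap_eq fun x => by
    change (x : ℂ) = φ (algebraMap ℚ Qb x)
    rw [eq_ratCast, map_ratCast]
  let ψ : ℂ →ₐ[ℚ] ℂ := RingHom.toRatAlgHom (starRingEnd ℂ)
  let h : Qb ≃ₐ[ℚ] Qb := ψ.restrictNormal' Qb
  have hh : ∀ x, φ (h x) = starRingEnd ℂ (φ x) := fun x =>
    AlgHom.restrictNormal_commutes ψ Qb x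
  refine ⟨h, ?_⟩
  intro σ x
  apply φ.injective
  rw [hh]
  exact (IsCMField.complexEmbedding_complexConj K (φ.comp σ) x).symm

theorem PPn_one {ε : ℝ} {Ω : Type*} [Field Ω] [CharZero Ω] (m : ℕ) :
    PPn p ι K ε m (1 : Ω) := by
  obtain ⟨h, hh⟩ := exists_conj K
  refine ⟨m, 1, 1, one_pos, (mul_one m).symm, (one_pow 1).symm, Polynomial.X - 1, h,
    Polynomial.X_sub_C_ne_zero (1 : ℚ), by simp, hh, ?_⟩
  intro z hz
  have h2 : z = 1 := by
    rw [map_sub, aeval_X, map_one, sub_eq_zero] at hz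
    exact hz
  left
  rw [h2, map_one]

/-- a number which dominates has no relations of small degree -/
theorem exists_dom (hu : ∀ φ : K →+* ℂ, ‖φ α‖ = 1) {a n : ℕ} (ha : 0 < a) {ε : ℝ}
    (hdom : Dominates p a ι α n ε) {N : (K →+* Qb) → ℕ}
    (hN : ∑ σ, N σ ≤ n) {σ₀ : K →+* Qb} (hσ₀ : N σ₀ ≠ N (cj σ₀)) :
    ∃ g : GQ, ε * (a * Real.log p) ≤ |FF ι α N g| ∧ FF ι α N g ≠ 0 := by
  have hp : (1 : ℝ) < p := by exact_mod_cast (Fact.out : p.Prime).one_lt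
  have hc : 0 < (a : ℝ) * Real.log p :=
    mul_pos (by exact_mod_cast ha) (Real.log_pos hp)
  rcases hdom with ⟨hε, h⟩ | ⟨rfl, h⟩
  · obtain ⟨g, hg⟩ := exists_large (ι := ι) hu ha hε h hN hσ₀
    refine ⟨g, hg, fun h0 => ?_⟩
    rw [h0, abs_zero] at hg
    exact absurd hg (not_le.2 (mul_pos hε hc))
  · obtain ⟨g, hg⟩ : ∃ g : GQ, FF ι α N g ≠ 0 :=
      h.elim (fun h => tight_large (ι := ι) hu ha h hσ₀) (fun h => large_prime (ι := ι) hu ha h hσ₀)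
    refine ⟨g, ?_, hg⟩
    rw [zero_mul]
    exact abs_nonneg _

theorem PPn_pow {ε : ℝ} {Ω : Type*} [Field Ω] [CharZero Ω] (m : ℕ) (ν : Ω) (n : ℕ) (hn : 0 < n)
    (h : PPn p ι K ε m ν) : PPn p ι K ε (m * n) (ν ^ n) := by
  obtain ⟨m₀, t, ν₀, ht, rfl, rfl, h⟩ := h
  exact ⟨m₀, t * n, ν₀, Nat.mul_pos ht hn, by ring, by rw [pow_mul], h⟩

theorem norm_p : ‖(p : PadicAlgCl p)‖ = (p : ℝ)⁻¹ := by
  have h4 : (p : PadicAlgCl p) = algebraMap ℚ_[p] (PadicAlgCl p) (p : ℚ_[p]) := by simp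
  rw [h4, PadicAlgCl.norm_extends, Padic.norm_p]

/-- the contribution of `K` changes its sign -/
theorem FF_conj (hu : ∀ φ : K →+* ℂ, ‖φ α‖ = 1) {h : GQ}
    (hh : ∀ (σ : K →+* Qb) (x : K), h (σ x) = σ (IsCMField.complexConj K x))
    (N : (K →+* Qb) → ℕ) (g : GQ) : FF ι α N (h * g) = - FF ι α N g := by
  unfold FF
  rw [← Finset.sum_neg_distrib]
  refine Finset.sum_congr rfl fun σ _ => ?_
  have h3 : ‖ι ((h * g) (σ α))‖ = ‖ι (g (σ α))‖⁻¹ := by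
    have h4 : (h * g) (σ α) = cj (act g σ) α := hh (act g σ) α
    rw [h4]
    exact cj_norm (ι := ι) hu (act g σ)
  rw [h3, Real.log_inv]
  ring

/-- **The relations with numbers with narrow slopes are trivial.** -/
theorem narrow_core (hu : ∀ φ : K →+* ℂ, ‖φ α‖ = 1) {a n : ℕ} (ha : 0 < a) {ε : ℝ}
    (hgap : Dominates p a ι α n ε) {Ω : Type*} [Field Ω] [CharZero Ω] [IsAlgClosed Ω]
    {m : ℕ} (hm : 0 < m) {ν : Ω} (hν : PPn p ι K ε m ν) (N' : (K →+* Ω) → ℕ)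
    (hN' : ∑ σ, N' σ ≤ n) (B : ℤ) {N₁ : ℕ} (hN₁ : 0 < N₁)
    (hrel : (∏ σ : K →+* Ω, σ α ^ (N₁ * m * N' σ)) * ν ^ (N₁ * a) = (p : Ω) ^ B)
    (σ : K →+* Ω) : N' σ = N' (cj σ) := by
  classical
  obtain ⟨m₀, t, ν₀, ht, rfl, rfl, Q, h, hQ0, hνQ, hh, hS⟩ := hν
  have hm₀ : 0 < m₀ := Nat.pos_of_mul_pos_right hm
  have hpp : 0 < p := (Fact.out : p.Prime).pos
  have hp1 : (1 : ℝ) < p := by exact_mod_cast (Fact.out : p.Prime).one_lt
  have hlp : 0 < Real.log p := Real.log_pos hp1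
  let τ : Qb →+* Ω := (IsAlgClosed.lift : Qb →ₐ[ℚ] Ω).toRingHom
  obtain ⟨β, hβQ, hτβ⟩ := exists_root τ hQ0 hνQ
  have hbij : Function.Bijective (fun ρ : K →+* Qb => τ.comp ρ) := by
    constructor
    · intro ρ ρ' h
      ext x
      exact τ.injective (RingHom.congr_fun h x)
    · intro σ
      obtain ⟨ρ, hρ⟩ := exists_lift τ σ
      exact ⟨ρ, hρ⟩
  let N : (K →+* Qb) → ℕ := fun ρ => N' (τ.comp ρ)
  have hrelQ : (∏ ρ : K →+* Qb, (ρ α) ^ (N₁ * (m₀ * t) * N ρ)) * β ^ (t * (N₁ * a)) =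
      (p : Qb) ^ B := by
    apply τ.injective
    rw [map_mul, map_pow, hτβ, map_zpow₀, map_natCast, pow_mul, ← hrel, map_prod]
    congr 1
    refine Fintype.prod_equiv (Equiv.ofBijective _ hbij) _ _ fun ρ => ?_
    rw [map_pow]
    rfl
  have hβ0 : β ≠ 0 := by
    rintro rfl
    rw [zero_pow (Nat.mul_pos ht (Nat.mul_pos hN₁ ha)).ne', mul_zero] at hrelQ
    exact zpow_ne_zero _ (Nat.cast_ne_zero.2 hpp.ne') hrelQ.symm
  have hpos : ∀ (g : GQ) (ρ : K →+* Qb), ‖ι (g (ρ α))‖ ≠ 0 := by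
    intro g ρ
    rw [norm_ne_zero_iff, ne_eq, map_eq_zero, map_eq_zero, map_eq_zero]
    exact TH121.KT.alpha_ne hu
  have hsum : ∀ g : GQ, ((N₁ * (m₀ * t) : ℕ) : ℝ) * FF ι α N g +
      (t * (N₁ * a) : ℕ) * Real.log ‖ι (g β)‖ = -(B * Real.log p) := by
    intro g
    have h1 := congrArg (fun z => Real.log ‖ι (g z)‖) hrelQ
    simp only [map_mul, map_prod, map_pow, map_zpow₀, norm_mul, norm_prod, norm_pow, norm_zpow,
      map_natCast] at h1
    rw [Real.log_mul, Real.log_prod (fun ρ _ => pow_ne_zero _ (hpos g ρ)), Real.log_zpow, norm_p,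
      Real.log_inv, Real.log_pow] at h1
    rotate_left
    · exact Finset.prod_ne_zero_iff.2 fun ρ _ => pow_ne_zero _ (hpos g ρ)
    · refine pow_ne_zero _ ?_
      rw [norm_ne_zero_iff, ne_eq, map_eq_zero, map_eq_zero]
      exact hβ0
    rw [← mul_neg, ← h1]
    congr 1
    unfold FF
    rw [Finset.mul_sum]
    refine Finset.sum_congr rfl fun ρ _ => ?_
    rw [Real.log_pow]
    push_cast
    ring
  by_contra hne
  obtain ⟨ρ₀, hρ₀⟩ := hbij.2 σ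
  have hρ₀ : τ.comp ρ₀ = σ := hρ₀
  have hN : ∑ ρ, N ρ ≤ n := by
    refine le_trans (le_of_eq ?_) hN'
    exact Equiv.sum_comp (Equiv.ofBijective _ hbij) N'
  obtain ⟨g, hg, hg0⟩ := exists_dom (ι := ι) hu ha hgap hN (σ₀ := ρ₀) (by
    change N' (τ.comp ρ₀) ≠ N' (τ.comp (cj ρ₀))
    rw [hρ₀]
    have h1 : τ.comp (cj ρ₀) = cj σ := by rw [← hρ₀]; rfl
    rw [h1]
    exact hne)
  have e1 := hsum g
  have e2 := hsum (h * g)
  rw [FF_conj hu hh] at e2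
  have hgβ : aeval (g β) Q = 0 := by
    rw [Polynomial.aeval_algHom_apply g β Q, hβQ, map_zero]
  have hc : 0 < (m₀ : ℝ) * Real.log p := mul_pos (by exact_mod_cast hm₀) hlp
  have h4 : slopeAt p m₀ (ι (h (g β))) - slopeAt p m₀ (ι (g β)) =
      (Real.log ‖ι (g β)‖ - Real.log ‖ι ((h * g) β)‖) / (m₀ * Real.log p) := by
    rw [slopeAt, slopeAt, Real.logb, Real.logb, Real.log_pow]
    change -(Real.log ‖ι ((h * g) β)‖ / _) - _ = _
    ring
  have h5 : 2 * (m₀ : ℝ) * FF ι α N g = a * (Real.log ‖ι ((h * g) β)‖ - Real.log ‖ι (g β)‖) := by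
    have h6 : ((N₁ * t : ℕ) : ℝ) ≠ 0 := by
      have := Nat.mul_pos hN₁ ht
      exact_mod_cast this.ne'
    apply mul_left_cancel₀ h6
    push_cast at e1 e2 ⊢
    linarith
  have hm2 : (0 : ℝ) < 2 * m₀ := by
    have : (0 : ℝ) < m₀ := by exact_mod_cast hm₀
    linarith
  rcases hS (g β) hgβ with h3 | h3
  · rw [← sub_eq_zero, h4, div_eq_zero_iff] at h3
    have h6 := h3.resolve_right hc.ne'
    have h7 : 2 * (m₀ : ℝ) * FF ι α N g = 0 := by
      rw [h5, show Real.log ‖ι ((h * g) β)‖ - Real.log ‖ι (g β)‖ = 0 by linarith, mul_zero]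
    exact hg0 ((mul_eq_zero.1 h7).resolve_left hm2.ne')
  rw [h4, abs_div, abs_of_pos hc, div_lt_iff₀ hc] at h3
  have h6 : 2 * (m₀ : ℝ) * |FF ι α N g| =
      a * |Real.log ‖ι (g β)‖ - Real.log ‖ι ((h * g) β)‖| := by
    have h7 := congrArg abs h5
    have ha2 : (0 : ℝ) < a := by exact_mod_cast ha
    rw [abs_mul (2 * (m₀ : ℝ)), abs_mul (a : ℝ), abs_of_pos hm2, abs_of_pos ha2,
      abs_sub_comm (Real.log ‖ι ((h * g) β)‖)] at h7
    exact h7
  have ha' : (0 : ℝ) < a := by exact_mod_cast ha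
  have hm' : (0 : ℝ) < m₀ := by exact_mod_cast hm₀
  have h8 : (a : ℝ) * |Real.log ‖ι (g β)‖ - Real.log ‖ι ((h * g) β)‖| <
      a * (2 * ε * (m₀ * Real.log p)) := mul_lt_mul_of_pos_left h3 ha'
  rw [← h6] at h8
  have h9 : 2 * (m₀ : ℝ) * (ε * (a * Real.log p)) ≤ 2 * m₀ * |FF ι α N g| :=
    mul_le_mul_of_nonneg_left hg (by positivity)
  have h10 : 2 * (m₀ : ℝ) * (ε * (a * Real.log p)) = a * (2 * ε * (m₀ * Real.log p)) := by ring
  linarith

end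

end Pool.Agent.D0H1.DS
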