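import Pool.Agent.TH121.KT.Rel

/-!
# Classes of embeddings and subfields
-/

set_option autoImplicit false
set_option linter.unusedSectionVars false

namespace Pool.Agent.D0H1.DS

open NumberField Polynomial Pool.Agent.TH121.KT

noncomputable section

variable {K : Type} [Field K] [NumberField K]

/-- equivalence with respect to a function -/
def Eqv {R : Type*} (m : (K →+* Qb) → R) (y y' : K →+* Qb) : Prop :=
  ∀ g : GQ, m (act g y) = m (act g y')

variable {R : Type*} {m : (K →+* Qb) → R}

theorem Eqv.refl (y : K →+* Qb) : Eqv m y y := fun _ => rfl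

theorem Eqv.symm {y z : K →+* Qb} (h : Eqv m y z) : Eqv m z y := fun g => (h g).symm

theorem Eqv.trans {x y z : K →+* Qb} (h : Eqv m x y) (h' : Eqv m y z) : Eqv m x z :=
  fun g => (h g).trans (h' g)

theorem Eqv.act {y z : K →+* Qb} (h : Eqv m y z) (g : GQ) : Eqv m (act g y) (act g z) := by
  intro k
  rw [← act_mul, ← act_mul]
  exact h _

/-- the subfield on which equivalent embeddings agree -/
def fldE (m : (K →+* Qb) → R) : IntermediateField ℚ K where
  carrier := {x | ∀ y z : K →+* Qb, Eqv m y z → y x = z x}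
  mul_mem' := by
    intro x y hx hy φ ψ h
    rw [map_mul, map_mul, hx φ ψ h, hy φ ψ h]
  add_mem' := by
    intro x y hx hy φ ψ h
    rw [map_add, map_add, hx φ ψ h, hy φ ψ h]
  algebraMap_mem' := by
    intro r φ ψ _
    rw [eq_ratCast, map_ratCast, map_ratCast]
  inv_mem' := by
    intro x hx φ ψ h
    rw [map_inv₀, map_inv₀, hx φ ψ h]

theorem mem_fldE {x : K} : x ∈ fldE m ↔ ∀ y z : K →+* Qb, Eqv m y z → y x = z x := Iff.rfl

theorem ext_primitive {θ : K} (hθ : IntermediateField.adjoin ℚ {θ} = ⊤) {a b : K →+* Qb}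
    (h : a θ = b θ) : a = b := by
  have key : ∀ x ∈ IntermediateField.adjoin ℚ {θ}, a x = b x := by
    intro x hx
    induction hx using IntermediateField.adjoin_induction with
    | mem x hx =>
      rw [Set.mem_singleton_iff.1 hx]
      exact h
    | algebraMap x => rw [eq_ratCast, map_ratCast, map_ratCast]
    | add x y _ _ hx hy => rw [map_add, map_add, hx, hy]
    | inv x _ hx => rw [map_inv₀, map_inv₀, hx]
    | mul x y _ _ hx hy => rw [map_mul, map_mul, hx, hy]
  ext x
  exact key x (by rw [hθ]; exact IntermediateField.mem_top)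

/-- **The fibres of the restriction to the subfield are the classes.** -/
theorem fibre (a b : K →+* Qb) : (∀ x ∈ fldE m, b x = a x) ↔ Eqv m a b := by
  classical
  constructor
  swap
  · intro h x hx
    exact (hx a b h).symm
  intro hb
  obtain ⟨θ, hθ⟩ := Field.exists_primitive_element ℚ K
  let C : Finset (K →+* Qb) := Finset.univ.filter (fun y => Eqv m a y)
  have hC : ∀ y, y ∈ C ↔ Eqv m a y := by
    intro y
    simp [C]
  let P : Qb[X] := ∏ y ∈ C, (X - Polynomial.C (y θ))
  have hperm : ∀ g : GQ, Eqv m a (act g a) → P.map (g : Qb →+* Qb) = P := by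
    intro g hg
    have h1 : P.map (g : Qb →+* Qb) = ∏ y ∈ C, (X - Polynomial.C (act g y θ)) := by
      simp only [P, Polynomial.map_prod, Polynomial.map_sub, Polynomial.map_X, Polynomial.map_C]
      rfl
    rw [h1]
    refine Finset.prod_bij (fun y _ => act g y) ?_ ?_ ?_ ?_
    · intro y hy
      rw [hC] at hy ⊢
      exact hg.trans (hy.act g)
    · intro y _ z _ hyz
      have h2 := congrArg (act g⁻¹) hyz
      rwa [act_inv_act, act_inv_act] at h2
    · intro y hy
      refine ⟨act g⁻¹ y, ?_, act_act_inv g y⟩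
      rw [hC] at hy ⊢
      have h2 := (hg.symm.trans hy).act g⁻¹
      rwa [act_inv_act] at h2
    · intro y _
      rfl
  have hcoef : ∀ i, ∀ g : GQ, Eqv m a (act g a) → g (P.coeff i) = P.coeff i := by
    intro i g hg
    have h1 := hperm g hg
    conv_rhs => rw [← h1]
    rw [Polynomial.coeff_map]
    rfl
  have hex : ∀ i, ∃ x : K, a x = P.coeff i := by
    intro i
    have h1 : P.coeff i ∈ a.toRatAlgHom.fieldRange := by
      refine mem_of_fixed _ fun h hh => hcoef i h ?_
      have h2 : act h a = a := by
        ext x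
        exact hh (a x) ⟨x, rfl⟩
      rw [h2]
      exact Eqv.refl a
    obtain ⟨x, hx⟩ := h1
    exact ⟨x, hx⟩
  choose c hc using hex
  have hcF : ∀ i, c i ∈ fldE m := by
    intro i y z hyz
    obtain ⟨g, rfl⟩ := exists_act_eq a y
    obtain ⟨g', rfl⟩ := exists_act_eq a z
    have h1 : Eqv m a (act (g⁻¹ * g') a) := by
      have h2 := hyz.act g⁻¹
      rwa [act_inv_act, ← act_mul] at h2
    have h2 := hcoef i _ h1
    rw [← hc i] at h2
    have h3 : act (g⁻¹ * g') a (c i) = a (c i) := h2
    have h4 := congrArg g h3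
    have h5 : g (act (g⁻¹ * g') a (c i)) = act g' a (c i) := by
      change act g (act (g⁻¹ * g') a) (c i) = _
      rw [← act_mul, mul_inv_cancel_left]
    rw [h5] at h4
    exact h4.symm
  have hbc : ∀ i, b (c i) = P.coeff i := by
    intro i
    rw [hb (c i) (hcF i), hc]
  have hPa : P.eval (a θ) = 0 := by
    simp only [P, Polynomial.eval_prod, Polynomial.eval_sub, Polynomial.eval_X, Polynomial.eval_C]
    exact Finset.prod_eq_zero ((hC a).2 (Eqv.refl a)) (sub_self _)
  have hPK : ∑ i ∈ Finset.range (P.natDegree + 1), c i * θ ^ i = 0 := by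
    apply a.injective
    rw [map_sum, map_zero, ← hPa, Polynomial.eval_eq_sum_range]
    exact Finset.sum_congr rfl fun i _ => by rw [map_mul, map_pow, hc]
  have hPb : P.eval (b θ) = 0 := by
    rw [Polynomial.eval_eq_sum_range]
    have h1 := congrArg b hPK
    rw [map_sum, map_zero] at h1
    rw [← h1]
    exact Finset.sum_congr rfl fun i _ => by rw [map_mul, map_pow, hbc]
  simp only [P, Polynomial.eval_prod, Polynomial.eval_sub, Polynomial.eval_X,
    Polynomial.eval_C] at hPb
  obtain ⟨y, hy, hy0⟩ := Finset.prod_eq_zero_iff.1 hPb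
  have h1 : b = y := ext_primitive hθ (sub_eq_zero.1 hy0)
  rw [h1]
  exact (hC y).1 hy

variable [IsCMField K] [AddCommGroup R] [LinearOrder R] [IsOrderedAddMonoid R]

theorem Eqv.cj (hm : ∀ y, m (cj y) = - m y) {y z : K →+* Qb} (h : Eqv m y z) :
    Eqv m (cj y) (cj z) := by
  intro g
  rw [act_cj, act_cj, hm, hm, h g]

theorem not_cj (hm : ∀ y, m (cj y) = - m y) {z : K →+* Qb} (hz : m z ≠ 0) (y : K →+* Qb) :
    ¬ Eqv m y (cj y) := by
  intro h
  obtain ⟨g, rfl⟩ := exists_act_eq y z
  have h1 := h g
  rw [act_cj, hm] at h1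
  exact hz (self_eq_neg.1 h1)

/-- a stable subfield which is not real is a CM field -/
theorem isCM_of_stable (F : IntermediateField ℚ K)
    (hst : ∀ x ∈ F, IsCMField.complexConj K x ∈ F)
    (hne : ∃ x ∈ F, IsCMField.complexConj K x ≠ x) : IsCMField F := by
  let s : F →ₐ[ℚ] F := RingHom.toRatAlgHom
    { toFun := fun x => ⟨IsCMField.complexConj K x.1, hst x.1 x.2⟩
      map_one' := by
        apply Subtype.ext
        change IsCMField.complexConj K 1 = 1
        rw [map_one]
      map_mul' := by
        intro x y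
        apply Subtype.ext
        change IsCMField.complexConj K (x.1 * y.1) = _
        rw [map_mul]
        rfl
      map_zero' := by
        apply Subtype.ext
        change IsCMField.complexConj K 0 = 0
        rw [map_zero]
      map_add' := by
        intro x y
        apply Subtype.ext
        change IsCMField.complexConj K (x.1 + y.1) = _
        rw [map_add]
        rfl }
  have hs : ∀ x : F, ((s x : F) : K) = IsCMField.complexConj K x.1 := fun x => rfl
  have hss : ∀ x, s (s x) = x := by
    intro x
    apply Subtype.ext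
    rw [hs, hs, IsCMField.complexConj_apply_apply]
  let σ : F ≃ₐ[ℚ] F := AlgEquiv.ofAlgHom s s (by ext x; exact congrArg _ (hss x))
    (by ext x; exact congrArg _ (hss x))
  have hσ : ∀ x : F, σ x = s x := fun x => rfl
  have hσ2 : σ * σ = 1 := by
    ext x
    rw [AlgEquiv.mul_apply, hσ, hσ, hss]
    rfl
  have hσ1 : σ ≠ 1 := by
    intro h
    obtain ⟨x, hx, hne⟩ := hne
    apply hne
    have h1 := AlgEquiv.congr_fun h ⟨x, hx⟩
    rw [hσ] at h1
    exact congrArg Subtype.val h1
  have hemb : ∀ (ψ : F →+* ℂ) (x : F), ψ (σ x) = (starRingEnd ℂ) (ψ x) := by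
    intro ψ x
    let Ψ : K →+* ℂ := ComplexEmbedding.lift K ψ
    have h1 : ∀ y : F, Ψ y.1 = ψ y := fun y =>
      RingHom.congr_fun (ComplexEmbedding.lift_comp_algebraMap K ψ) y
    rw [← h1, hσ, hs, IsCMField.complexEmbedding_complexConj, h1]
  have hord : orderOf σ = 2 := orderOf_eq_prime (by rw [pow_two, hσ2]) hσ1
  let R : IntermediateField ℚ F := IntermediateField.fixedField (Subgroup.zpowers σ)
  have hfin : Module.finrank R F = 2 := by
    rw [IntermediateField.finrank_fixedField_eq_card, Nat.card_zpowers, hord]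
  have hR : ∀ y : R, σ y.1 = y.1 := by
    intro y
    exact (IntermediateField.mem_fixedField_iff _ _).1 y.2 σ (Subgroup.mem_zpowers σ)
  have htc : IsTotallyComplex F := by
    refine ⟨fun w => ?_⟩
    rw [← InfinitePlace.mk_embedding w, InfinitePlace.isComplex_mk_iff]
    intro hreal
    apply hσ1
    refine AlgEquiv.ext fun x => ?_
    apply w.embedding.injective
    rw [hemb]
    exact RingHom.congr_fun hreal x
  have htr : IsTotallyReal R := by
    refine ⟨fun w => ?_⟩
    rw [← InfinitePlace.mk_embedding w, InfinitePlace.isReal_mk_iff]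
    let ψ : F →+* ℂ := ComplexEmbedding.lift F w.embedding
    have h1 : ∀ y : R, ψ y.1 = w.embedding y := fun y =>
      RingHom.congr_fun (ComplexEmbedding.lift_comp_algebraMap F w.embedding) y
    rw [ComplexEmbedding.isReal_iff]
    ext y
    rw [ComplexEmbedding.conjugate_coe_eq, ← h1, ← hemb, hR]
  have hquad : Algebra.IsQuadraticExtension R F := ⟨hfin⟩
  exact IsCMField.ofCMExtension R F

/-- **The subfield of a nonzero odd function is a CM field.** -/
theorem isCM_fldE (hm : ∀ y, m (cj y) = - m y) {z : K →+* Qb} (hz : m z ≠ 0) :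
    IsCMField (fldE m) := by
  refine isCM_of_stable _ ?_ ?_
  · intro x hx y z h
    exact hx (TH121.KT.cj y) (TH121.KT.cj z) (h.cj hm)
  · by_contra hcon
    push Not at hcon
    apply not_cj hm hz z
    rw [← fibre]
    intro x hx
    rw [cj_apply, hcon x hx]

end

end Pool.Agent.D0H1.DS
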