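import Pool.Agent.D0H1.DS.Defs
import Pool.Agent.TH121.KT.Rel

/-!
# Dominant slopes: there are no relations
-/

set_option autoImplicit false
set_option linter.unusedSectionVars false

namespace Pool.Agent.D0H1.DS

open NumberField Polynomial Pool.Agent.TH121.KT Pool.Agent.N179.TL

noncomputable section

section half

variable {Y : Type*} [Fintype Y] [DecidableEq Y] (c : Y → Y) (hc : ∀ y, c (c y) = y)

include hc in
/-- the sum against an odd function is a sum over a half -/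
theorem sum_half (N : Y → ℕ) (d : Y → ℝ) (hd : ∀ y, d (c y) = - d y) :
    ∑ y, (N y : ℝ) * d y =
      ∑ y ∈ Finset.univ.filter (fun y => N (c y) < N y), ((N y : ℝ) - N (c y)) * d y := by
  have h1 : ∑ y, (N (c y) : ℝ) * d y = - ∑ y, (N y : ℝ) * d y := by
    rw [← Finset.sum_neg_distrib]
    refine Fintype.sum_equiv ⟨c, c, hc, hc⟩ _ _ fun y => ?_
    change _ = -((N (c y) : ℝ) * d (c y))
    rw [hd]
    ring
  have h2 : ∑ y, ((N y : ℝ) - N (c y)) * d y = 2 * ∑ y, (N y : ℝ) * d y := by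
    have h3 : ∀ y, ((N y : ℝ) - N (c y)) * d y = (N y : ℝ) * d y - (N (c y) : ℝ) * d y := by
      intro y
      ring
    rw [Finset.sum_congr rfl fun y _ => h3 y, Finset.sum_sub_distrib, h1]
    ring
  have h4 : ∀ y, ((N y : ℝ) - N (c y)) * d y =
      (if N (c y) < N y then ((N y : ℝ) - N (c y)) * d y else 0) +
      (if N y < N (c y) then ((N y : ℝ) - N (c y)) * d y else 0) := by
    intro y
    rcases lt_trichotomy (N (c y)) (N y) with h | h | h
    · rw [if_pos h, if_neg (by omega), add_zero]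
    · rw [if_neg (by omega), if_neg (by omega), h]
      ring
    · rw [if_neg (by omega), if_pos h, zero_add]
  have h5 : ∑ y, (if N y < N (c y) then ((N y : ℝ) - N (c y)) * d y else 0) =
      ∑ y, (if N (c y) < N y then ((N y : ℝ) - N (c y)) * d y else 0) := by
    refine Fintype.sum_equiv ⟨c, c, hc, hc⟩ _ _ fun y => ?_
    change _ = if N (c (c y)) < N (c y) then ((N (c y) : ℝ) - N (c (c y))) * d (c y) else 0
    rw [hc, hd]
    by_cases h : N y < N (c y)
    · rw [if_pos h, if_pos h]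
      ring
    · rw [if_neg h, if_neg h]
  rw [Finset.sum_congr rfl fun y _ => h4 y, Finset.sum_add_distrib, h5, ← two_mul] at h2
  rw [Finset.sum_filter]
  linarith

include hc in
/-- **The dominant term.** -/
theorem abs_sum_ge {N : Y → ℕ} {d : Y → ℝ} (hd : ∀ y, d (c y) = - d y) {n : ℕ}
    (hn : ∑ y, N y ≤ n) {y₁ : Y} {ε : ℝ} (hε : 0 ≤ ε)
    (hgap : ∀ S : Finset Y, S.card < n → (∀ y ∈ S, y ≠ y₁ ∧ y ≠ c y₁ ∧ c y ∉ S) →
      ε + ∑ y ∈ S, |d y| ≤ |d y₁|)
    (hmax : ∀ y, |(N y : ℤ) - N (c y)| ≤ |(N y₁ : ℤ) - N (c y₁)|) (hne : N y₁ ≠ N (c y₁)) :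
    ε ≤ |∑ y, (N y : ℝ) * d y| := by
  -- the element of the pair with the larger multiplicity
  obtain ⟨z, hz, hzlt⟩ : ∃ z, (z = y₁ ∨ z = c y₁) ∧ N (c z) < N z := by
    rcases lt_or_gt_of_ne hne with h | h
    · exact ⟨c y₁, Or.inr rfl, by rw [hc]; exact h⟩
    · exact ⟨y₁, Or.inl rfl, h⟩
  have hdz : |d z| = |d y₁| := by
    rcases hz with rfl | rfl
    · rfl
    · rw [hd, abs_neg]
  have hmaxz : ∀ y, (N y : ℤ) - N (c y) ≤ (N z : ℤ) - N (c z) := by
    intro y
    have h1 := (le_abs_self _).trans (hmax y)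
    rcases hz with rfl | rfl
    · rwa [abs_of_pos (by omega)] at h1
    · rw [hc] at hzlt ⊢
      rw [abs_of_neg (by omega)] at h1
      omega
  rw [sum_half c hc N d hd]
  set T := Finset.univ.filter (fun y => N (c y) < N y) with hT
  have hzT : z ∈ T := by
    rw [hT, Finset.mem_filter]
    exact ⟨Finset.mem_univ _, hzlt⟩
  have hcz : c z ∉ T := by
    rw [hT, Finset.mem_filter, hc]
    rintro ⟨-, h⟩
    omega
  set S := T.erase z with hS
  have hmemS : ∀ y ∈ S, N (c y) < N y := by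
    intro y hy
    exact (Finset.mem_filter.1 (Finset.mem_of_mem_erase hy)).2
  have hcardS : S.card < n := by
    have h1 : ∑ y ∈ T, (N y - N (c y)) ≤ n := by
      refine le_trans ?_ hn
      refine (Finset.sum_le_sum fun y _ => Nat.sub_le _ _).trans ?_
      exact Finset.sum_le_sum_of_subset (Finset.subset_univ _)
    rw [← Finset.add_sum_erase _ _ hzT, ← hS] at h1
    have h2 : S.card ≤ ∑ y ∈ S, (N y - N (c y)) := by
      rw [Finset.card_eq_sum_ones]
      refine Finset.sum_le_sum fun y hy => ?_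
      have := hmemS y hy
      omega
    omega
  have hS1 : ∀ y ∈ S, y ≠ y₁ ∧ y ≠ c y₁ ∧ c y ∉ S := by
    intro y hy
    have h1 := hmemS y hy
    have h2 : y ≠ z := Finset.ne_of_mem_erase hy
    have h3 : y ≠ c z := by
      rintro rfl
      exact hcz (Finset.mem_of_mem_erase hy)
    have h4 : c y ∉ S := by
      intro h
      have := hmemS _ h
      rw [hc] at this
      omega
    rcases hz with rfl | rfl
    · exact ⟨h2, h3, h4⟩
    · rw [hc] at h3
      exact ⟨h3, h2, h4⟩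
  have h1 := hgap S hcardS hS1
  rw [← hdz] at h1
  rw [← Finset.add_sum_erase _ _ hzT, ← hS]
  -- the remaining terms
  set M : ℝ := (N z : ℝ) - N (c z) with hM
  have hM1 : 1 ≤ M := by
    have : (N (c z) : ℝ) + 1 ≤ N z := by exact_mod_cast hzlt
    rw [hM]
    linarith
  have h2 : |∑ y ∈ S, ((N y : ℝ) - N (c y)) * d y| ≤ M * ∑ y ∈ S, |d y| := by
    rw [Finset.mul_sum]
    refine (Finset.abs_sum_le_sum_abs _ _).trans (Finset.sum_le_sum fun y hy => ?_)
    rw [abs_mul]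
    refine mul_le_mul_of_nonneg_right ?_ (abs_nonneg _)
    have h3 : (N (c y) : ℝ) < N y := by exact_mod_cast hmemS y hy
    rw [abs_of_pos (by linarith), hM]
    have h4 := hmaxz y
    exact_mod_cast h4
  have h3 : |M * d z + ∑ y ∈ S, ((N y : ℝ) - N (c y)) * d y| ≥
      |M * d z| - |∑ y ∈ S, ((N y : ℝ) - N (c y)) * d y| := by
    have := abs_sub_abs_le_abs_sub (M * d z) (-∑ y ∈ S, ((N y : ℝ) - N (c y)) * d y)
    rw [abs_neg, sub_neg_eq_add] at this
    exact this
  have h4 : |M * d z| = M * |d z| := by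
    rw [abs_mul, abs_of_pos (by linarith)]
  have h5 : M * (ε + ∑ y ∈ S, |d y|) ≤ M * |d z| := mul_le_mul_of_nonneg_left h1 (by linarith)
  have h6 : ε ≤ M * ε := by nlinarith
  rw [h4] at h3
  linarith

end half

variable {K : Type} [Field K] [NumberField K] [IsCMField K] {p : ℕ} [Fact p.Prime]
  {ι : Qb →+* PadicAlgCl p} {α : K}

theorem slope_eq (a : ℕ) (x : PadicAlgCl p) :
    slopeAt p a x = -(Real.log ‖x‖ / (a * Real.log p)) := by
  rw [slopeAt, Real.logb, Real.log_pow]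

/-- **A number with a dominant slope has no relations of small degree.** -/
theorem exists_large (hu : ∀ φ : K →+* ℂ, ‖φ α‖ = 1) {a n : ℕ} (ha : 0 < a) {ε : ℝ}
    (hε : 0 < ε) (hgap : HasDominantSlope p a ι α n ε) {N : (K →+* Qb) → ℕ}
    (hN : ∑ σ, N σ ≤ n) {σ₀ : K →+* Qb} (hσ₀ : N σ₀ ≠ N (cj σ₀)) :
    ∃ g : GQ, ε * (a * Real.log p) ≤ |FF ι α N g| := by
  classical
  have hp : (1 : ℝ) < p := by exact_mod_cast (Fact.out : p.Prime).one_lt
  have hc : 0 < (a : ℝ) * Real.log p :=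
    mul_pos (by exact_mod_cast ha) (Real.log_pos hp)
  obtain ⟨s, c, σ₁, hcs, hσ₁⟩ := hgap
  obtain ⟨ρ, -, hρ⟩ := Finset.exists_max_image (Finset.univ : Finset (K →+* Qb))
    (fun σ => |(N σ : ℤ) - N (cj σ)|) ⟨σ₀, Finset.mem_univ _⟩
  have hρ0 : N ρ ≠ N (cj ρ) := by
    intro h
    have h1 := hρ σ₀ (Finset.mem_univ _)
    rw [h, sub_self, abs_zero, abs_nonpos_iff] at h1
    omega
  obtain ⟨g, hg⟩ := exists_act_eq ρ σ₁
  -- reindexing
  let N' : (K →+* Qb) → ℕ := fun σ => N (act g⁻¹ σ)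
  let d : (K →+* Qb) → ℝ := fun σ => slopeSum p a ι α s c σ
  have hd : ∀ σ, d (cj σ) = - d σ := by
    intro σ
    change slopeSum p a ι α s c (cj σ) = - slopeSum p a ι α s c σ
    unfold slopeSum
    rw [← Finset.sum_neg_distrib]
    refine Finset.sum_congr rfl fun h _ => ?_
    have h1 : ‖ι (h (cj σ α))‖ = ‖ι (h (σ α))‖⁻¹ := cj_norm (ι := ι) hu (act h σ)
    rw [slope_eq, slope_eq, h1, Real.log_inv]
    ring
  have h1 : act g⁻¹ σ₁ = ρ := by rw [← hg, act_inv_act]
  have key : ε ≤ |∑ σ, (N' σ : ℝ) * d σ| := by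
    refine abs_sum_ge cj cj_cj hd (y₁ := σ₁) (n := n) ?_ hε.le ?_ ?_ ?_
    · refine le_trans (le_of_eq ?_) hN
      exact Fintype.sum_equiv ⟨act g⁻¹, act g, act_act_inv g, act_inv_act g⟩ _ _ fun σ => rfl
    · intro S hS hS'
      exact hσ₁ S hS hS'
    · intro σ
      change |(N (act g⁻¹ σ) : ℤ) - N (act g⁻¹ (cj σ))| ≤ |(N (act g⁻¹ σ₁) : ℤ) -
        N (act g⁻¹ (cj σ₁))|
      rw [act_cj, act_cj, h1]
      exact hρ _ (Finset.mem_univ _)
    · change N (act g⁻¹ σ₁) ≠ N (act g⁻¹ (cj σ₁))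
      rw [act_cj, h1]
      exact hρ0
  -- the sum is a combination of the sums for the places
  have hFF : ∀ h : GQ, ∑ σ, (N' σ : ℝ) * Real.log ‖ι (h (σ α))‖ = FF ι α N (h * g) := by
    intro h
    unfold FF
    refine Fintype.sum_equiv ⟨act g⁻¹, act g, act_act_inv g, act_inv_act g⟩ _ _ fun σ => ?_
    change (N (act g⁻¹ σ) : ℝ) * Real.log ‖ι (h (σ α))‖ =
      (N (act g⁻¹ σ) : ℝ) * Real.log ‖ι (h (act g (act g⁻¹ σ) α))‖
    rw [act_act_inv]
  have hsum : ∑ σ, (N' σ : ℝ) * d σ = -(∑ h ∈ s, c h * FF ι α N (h * g)) / (a * Real.log p) := by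
    have h2 : ∀ σ, (N' σ : ℝ) * d σ =
        ∑ h ∈ s, -(c h * ((N' σ : ℝ) * Real.log ‖ι (h (σ α))‖)) / (a * Real.log p) := by
      intro σ
      change (N' σ : ℝ) * slopeSum p a ι α s c σ = _
      unfold slopeSum
      rw [Finset.mul_sum]
      refine Finset.sum_congr rfl fun h _ => ?_
      rw [slope_eq]
      ring
    rw [Finset.sum_congr rfl fun σ _ => h2 σ, Finset.sum_comm, ← Finset.sum_neg_distrib,
      Finset.sum_div]
    refine Finset.sum_congr rfl fun h _ => ?_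
    rw [← hFF h, Finset.mul_sum, ← Finset.sum_neg_distrib, Finset.sum_div]
  rw [hsum, abs_div, abs_neg, abs_of_pos hc, le_div_iff₀ hc] at key
  by_contra hcon
  push Not at hcon
  have h3 : |∑ h ∈ s, c h * FF ι α N (h * g)| ≤ ∑ h ∈ s, |c h| * |FF ι α N (h * g)| := by
    refine (Finset.abs_sum_le_sum_abs _ _).trans (le_of_eq ?_)
    exact Finset.sum_congr rfl fun h _ => abs_mul _ _
  have hε' : 0 < ε * (a * Real.log p) := mul_pos hε hc
  by_cases h0 : ∑ h ∈ s, |c h| = 0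
  · have h4 : ∑ h ∈ s, |c h| * |FF ι α N (h * g)| = 0 := by
      refine Finset.sum_eq_zero fun h hh => ?_
      rw [(Finset.sum_eq_zero_iff_of_nonneg fun h _ => abs_nonneg (c h)).1 h0 h hh, zero_mul]
    linarith
  · have h5 : ∑ h ∈ s, |c h| * |FF ι α N (h * g)| <
        ∑ h ∈ s, |c h| * (ε * (a * Real.log p)) := by
      refine Finset.sum_lt_sum (fun h _ => mul_le_mul_of_nonneg_left (hcon _).le (abs_nonneg _)) ?_
      by_contra hcon'
      push Not at hcon'
      apply h0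
      refine Finset.sum_eq_zero fun h hh => ?_
      by_contra hne
      have h6 : 0 < |c h| := lt_of_le_of_ne (abs_nonneg _) (Ne.symm hne)
      exact absurd (hcon' h hh) (not_le.2 (mul_lt_mul_of_pos_left (hcon _) h6))
    rw [← Finset.sum_mul] at h5
    have h7 : (∑ h ∈ s, |c h|) * (ε * (a * Real.log p)) ≤ 1 * (ε * (a * Real.log p)) :=
      mul_le_mul_of_nonneg_right hcs hε'.le
    linarith

end

end Pool.Agent.D0H1.DS
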