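import Mathlib

/-!
# A cyclic permutation of prime order and two orthogonal odd functions
-/

set_option autoImplicit false
set_option linter.unusedSectionVars false

namespace Pool.Agent.D0H1.DS

open Polynomial

/-- Fourier inversion: if all nontrivial Fourier coefficients vanish then the function is constant -/
theorem const_of_fourier {l : ℕ} (hl : 0 < l) (D : ℕ → ℂ)
    (h : ∀ z : ℂ, z ^ l = 1 → z ≠ 1 → ∑ i ∈ Finset.range l, z ^ i * D i = 0) :
    ∀ j < l, (l : ℂ) * D j = ∑ i ∈ Finset.range l, D i := by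
  intro j hj
  have hprim : IsPrimitiveRoot (Complex.exp (2 * Real.pi * Complex.I / l)) l :=
    Complex.isPrimitiveRoot_exp l hl.ne'
  set ζ : ℂ := Complex.exp (2 * Real.pi * Complex.I / l) with hζ
  have h1 : ∑ k ∈ Finset.range l, ζ ^ (k * (l - j)) * ∑ i ∈ Finset.range l, (ζ ^ k) ^ i * D i =
      ∑ i ∈ Finset.range l, D i := by
    obtain ⟨l', rfl⟩ : ∃ l', l = l' + 1 := ⟨l - 1, by omega⟩
    rw [Finset.sum_range_succ']
    have h2 : ∀ k ∈ Finset.range l', ζ ^ ((k + 1) * (l' + 1 - j)) *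
        ∑ i ∈ Finset.range (l' + 1), (ζ ^ (k + 1)) ^ i * D i = 0 := by
      intro k hk
      rw [h (ζ ^ (k + 1)), mul_zero]
      · rw [← pow_mul, mul_comm, pow_mul, hprim.pow_eq_one, one_pow]
      · exact hprim.pow_ne_one_of_pos_of_lt (by omega) (by have := Finset.mem_range.1 hk; omega)
    rw [Finset.sum_eq_zero h2]
    simp
  rw [← h1]
  simp_rw [Finset.mul_sum]
  rw [Finset.sum_comm]
  have h3 : ∀ i ∈ Finset.range l, ∑ k ∈ Finset.range l, ζ ^ (k * (l - j)) * ((ζ ^ k) ^ i * D i) =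
      if i = j then (l : ℂ) * D j else 0 := by
    intro i hi
    have hi' := Finset.mem_range.1 hi
    have h4 : ∀ k ∈ Finset.range l, ζ ^ (k * (l - j)) * ((ζ ^ k) ^ i * D i) =
        (ζ ^ (l - j + i)) ^ k * D i := by
      intro k _
      rw [← mul_assoc, ← pow_mul, ← pow_mul, ← pow_add]
      congr 2
      ring
    rw [Finset.sum_congr rfl h4, ← Finset.sum_mul]
    split_ifs with hij
    · subst hij
      have h5 : ζ ^ (l - i + i) = 1 := by
        rw [Nat.sub_add_cancel hi'.le, hprim.pow_eq_one]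
      rw [h5]
      simp
    · have h5 : ζ ^ (l - j + i) ≠ 1 := by
        intro h6
        rw [hprim.pow_eq_one_iff_dvd] at h6
        obtain ⟨c, hc⟩ := h6
        have hc1 : c = 1 := by
          have hc0 : c ≠ 0 := by
            rintro rfl
            omega
          by_contra hne
          have : 2 ≤ c := by omega
          have : l * 2 ≤ l * c := Nat.mul_le_mul_left l this
          omega
        rw [hc1] at hc
        omega
      have h6 : (ζ ^ (l - j + i)) ^ l = 1 := by
        rw [← pow_mul, mul_comm, pow_mul, hprim.pow_eq_one, one_pow]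
      have h7 := geom_sum_mul (ζ ^ (l - j + i)) l
      rw [h6, sub_self] at h7
      rw [(mul_eq_zero.1 h7).resolve_right (sub_ne_zero.2 h5), zero_mul]
  rw [Finset.sum_congr rfl h3, Finset.sum_ite_eq' (Finset.range l) j,
    if_pos (Finset.mem_range.2 hj)]

/-- one vanishing Fourier coefficient of an integral function on a cyclic group of prime order forces
all to vanish -/
theorem fourier_int {l : ℕ} (hl : l.Prime) (M : ℕ → ℤ) {z w : ℂ} (hz : z ^ l = 1) (hz1 : z ≠ 1)
    (hw : w ^ l = 1) (hw1 : w ≠ 1) (h : ∑ i ∈ Finset.range l, z ^ i * (M i : ℂ) = 0) :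
    ∑ i ∈ Finset.range l, w ^ i * (M i : ℂ) = 0 := by
  have hpz : IsPrimitiveRoot z l := by
    rw [IsPrimitiveRoot.iff_orderOf]
    exact orderOf_eq_prime (hp := ⟨hl⟩) hz hz1
  have hpw : IsPrimitiveRoot w l := by
    rw [IsPrimitiveRoot.iff_orderOf]
    exact orderOf_eq_prime (hp := ⟨hl⟩) hw hw1
  let f : ℤ[X] := ∑ i ∈ Finset.range l, C (M i) * X ^ i
  have hf : ∀ x : ℂ, aeval x f = ∑ i ∈ Finset.range l, x ^ i * (M i : ℂ) := by
    intro x
    simp only [f, map_sum, map_mul, map_pow, aeval_X, aeval_C]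
    refine Finset.sum_congr rfl fun i _ => ?_
    rw [mul_comm]
    simp
  rw [← hf] at h ⊢
  have h1 : cyclotomic l ℤ = minpoly ℤ z := cyclotomic_eq_minpoly hpz hl.pos
  have h2 : cyclotomic l ℤ = minpoly ℤ w := cyclotomic_eq_minpoly hpw hl.pos
  have h3 : minpoly ℤ z ∣ f := minpoly.isIntegrallyClosed_dvd (hpz.isIntegral hl.pos) h
  rw [← h1, h2] at h3
  obtain ⟨q, hq⟩ := h3
  rw [hq, map_mul, minpoly.aeval, zero_mul]

section perm

variable {Y : Type*} [Fintype Y] [DecidableEq Y]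

/-- four disjoint sets of the same size -/
theorem four_card {l : ℕ} (c : Y → Y) (hc : ∀ y, c (c y) = y) (A B : Finset Y) (hA : A.card = l)
    (hB : B.card = l) (h1 : ∀ a ∈ A, c a ∉ A) (h2 : ∀ b ∈ B, c b ∉ B) (h3 : ∀ a ∈ A, a ∉ B)
    (h4 : ∀ a ∈ A, c a ∉ B) : 4 * l ≤ Fintype.card Y := by
  have hinj : Function.Injective c := fun a b h => by rw [← hc a, h, hc]
  have hA' : (A.image c).card = l := by rw [Finset.card_image_of_injective _ hinj, hA]
  have hB' : (B.image c).card = l := by rw [Finset.card_image_of_injective _ hinj, hB]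
  have e1 : Disjoint A (A.image c) := by
    rw [Finset.disjoint_left]
    intro a ha ha'
    obtain ⟨b, hb, rfl⟩ := Finset.mem_image.1 ha'
    exact h1 b hb ha
  have e2 : Disjoint B (B.image c) := by
    rw [Finset.disjoint_left]
    intro a ha ha'
    obtain ⟨b, hb, rfl⟩ := Finset.mem_image.1 ha'
    exact h2 b hb ha
  have e3 : Disjoint (A ∪ A.image c) (B ∪ B.image c) := by
    rw [Finset.disjoint_left]
    intro a ha ha'
    rw [Finset.mem_union] at ha ha'
    rcases ha with ha | ha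
    · rcases ha' with hb | hb
      · exact h3 a ha hb
      · obtain ⟨b, hb2, hbe⟩ := Finset.mem_image.1 hb
        have h5 := h4 _ ha
        rw [← hbe, hc] at h5
        exact h5 hb2
    · obtain ⟨a', ha2, hae⟩ := Finset.mem_image.1 ha
      rcases ha' with hb | hb
      · rw [← hae] at hb
        exact h4 a' ha2 hb
      · obtain ⟨b, hb2, hbe⟩ := Finset.mem_image.1 hb
        have h5 : a' = b := hinj (hae.trans hbe.symm)
        rw [← h5] at hb2
        exact h3 _ ha2 hb2
  have e4 : ((A ∪ A.image c) ∪ (B ∪ B.image c)).card = 4 * l := by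
    rw [Finset.card_union_of_disjoint e3, Finset.card_union_of_disjoint e1,
      Finset.card_union_of_disjoint e2, hA, hA', hB, hB']
    ring
  rw [← e4]
  exact Finset.card_le_univ _

variable {l : ℕ} {π : Equiv.Perm Y}

theorem pow_fixed (hl : l.Prime) (hπ : π ^ l = 1) {y : Y} {k : ℕ} (hk : ¬ l ∣ k)
    (h : (π ^ k) y = y) : π y = y := by
  have hco : Nat.Coprime k l := ((Nat.Prime.coprime_iff_not_dvd hl).2 hk).symm
  let S : Subgroup (Equiv.Perm Y) := MulAction.stabilizer (Equiv.Perm Y) y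
  have h1 : π ^ k ∈ S := h
  have h2 : π ^ l ∈ S := by rw [hπ]; exact S.one_mem
  have h3 := Nat.gcd_eq_gcd_ab k l
  rw [hco] at h3
  have h4 : π = (π ^ k) ^ (Nat.gcdA k l) * (π ^ l) ^ (Nat.gcdB k l) := by
    rw [← zpow_natCast π k, ← zpow_natCast π l, ← zpow_mul, ← zpow_mul, ← zpow_add, ← h3]
    simp
  have h5 : π ∈ S := by
    rw [h4]
    exact S.mul_mem (S.zpow_mem h1 _) (S.zpow_mem h2 _)
  exact h5

/-- the cycle of an element -/
def cyc (π : Equiv.Perm Y) (l : ℕ) (y : Y) : Finset Y := (Finset.range l).image fun i => (π ^ i) y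

theorem mem_cyc {y z : Y} : z ∈ cyc π l y ↔ ∃ i < l, (π ^ i) y = z := by
  simp [cyc]

theorem card_cyc (hl : l.Prime) (hπ : π ^ l = 1) {y : Y} (hy : π y ≠ y) : (cyc π l y).card = l := by
  unfold cyc
  rw [Finset.card_image_of_injOn, Finset.card_range]
  have key : ∀ i j : ℕ, i < j → j < l → (π ^ i) y = (π ^ j) y → False := by
    intro i j hij hj h
    apply hy
    refine pow_fixed hl hπ (k := j - i) ?_ ?_
    · intro hd
      have := Nat.le_of_dvd (by omega) hd
      omega
    · have h1 : (π ^ j) y = (π ^ i) ((π ^ (j - i)) y) := by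
        rw [← Equiv.Perm.mul_apply, ← pow_add]
        congr 2
        omega
      rw [h1] at h
      exact ((π ^ i).injective h).symm
  intro i hi j hj h
  have hi' := Finset.mem_range.1 (Finset.mem_coe.1 hi)
  have hj' := Finset.mem_range.1 (Finset.mem_coe.1 hj)
  have h : (π ^ i) y = (π ^ j) y := h
  rcases lt_trichotomy i j with h1 | h1 | h1
  · exact (key i j h1 hj' h).elim
  · exact h1
  · exact (key j i h1 hi' h.symm).elim

variable {c : Y → Y}

theorem pow_comm (hπc : ∀ y, π (c y) = c (π y)) (i : ℕ) (y : Y) : (π ^ i) (c y) = c ((π ^ i) y) := by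
  induction i with
  | zero => rfl
  | succ i ih => rw [pow_succ', Equiv.Perm.mul_apply, Equiv.Perm.mul_apply, ih, hπc]

/-- a power does not map an element to its conjugate -/
theorem ne_conj (hl : l.Prime) (hl2 : l ≠ 2) (hπ : π ^ l = 1) (hc : ∀ y, c (c y) = y)
    (hπc : ∀ y, π (c y) = c (π y)) {y : Y} (hcy : c y ≠ y) (hy : π y ≠ y) (k : ℕ) :
    (π ^ k) y ≠ c y := by
  intro h
  have h1 : (π ^ (2 * k)) y = y := by
    rw [two_mul, pow_add, Equiv.Perm.mul_apply, h, pow_comm hπc, h, hc]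
  by_cases hd : l ∣ 2 * k
  · have h2 : l ∣ k := by
      rcases (Nat.Prime.dvd_mul hl).1 hd with h2 | h2
      · exact absurd ((Nat.prime_dvd_prime_iff_eq hl Nat.prime_two).1 h2) hl2
      · exact h2
    obtain ⟨t, rfl⟩ := h2
    rw [pow_mul, hπ, one_pow] at h
    exact hcy h.symm
  · exact hy (pow_fixed hl hπ hd h1)

/-- **If `4 l` is larger than the number of elements then there is only one pair of cycles.** -/
theorem one_cycle (hl : l.Prime) (hl2 : l ≠ 2) (hcard : Fintype.card Y < 4 * l) (hπ : π ^ l = 1)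
    (hc : ∀ y, c (c y) = y) (hcy : ∀ y, c y ≠ y) (hπc : ∀ y, π (c y) = c (π y)) {y₁ : Y}
    (hy₁ : π y₁ ≠ y₁) {y : Y} (hy : π y ≠ y) : ∃ n : ℕ, y = (π ^ n) y₁ ∨ y = c ((π ^ n) y₁) := by
  by_contra hcon
  push Not at hcon
  have hback : ∀ {i : ℕ} {z w : Y}, i < l → (π ^ i) z = w → z = (π ^ (l - i)) w := by
    intro i z w hi h
    rw [← h, ← Equiv.Perm.mul_apply, ← pow_add, Nat.sub_add_cancel hi.le, hπ]
    rfl
  have hself : ∀ z, π z ≠ z → ∀ a ∈ cyc π l z, c a ∉ cyc π l z := by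
    intro z hz a ha hca
    obtain ⟨i, hi, rfl⟩ := mem_cyc.1 ha
    obtain ⟨j, hj, hj'⟩ := mem_cyc.1 hca
    rw [← pow_comm hπc] at hj'
    have h1 : c z = (π ^ (l - i)) ((π ^ j) z) := hback hi hj'.symm
    rw [← Equiv.Perm.mul_apply, ← pow_add] at h1
    exact ne_conj hl hl2 hπ hc hπc (hcy z) hz _ h1.symm
  have h4 := four_card (l := l) c hc (cyc π l y) (cyc π l y₁) (card_cyc hl hπ hy) (card_cyc hl hπ hy₁)
    (hself y hy) (hself y₁ hy₁) ?_ ?_
  · omega
  · intro a ha ha'
    obtain ⟨i, hi, rfl⟩ := mem_cyc.1 ha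
    obtain ⟨j, hj, hj'⟩ := mem_cyc.1 ha'
    have h1 := hback hi hj'.symm
    rw [← Equiv.Perm.mul_apply, ← pow_add] at h1
    exact (hcon _).1 h1
  · intro a ha ha'
    obtain ⟨i, hi, rfl⟩ := mem_cyc.1 ha
    obtain ⟨j, hj, hj'⟩ := mem_cyc.1 ha'
    rw [← pow_comm hπc] at hj'
    have h1 := hback hi hj'.symm
    rw [← Equiv.Perm.mul_apply, ← pow_add] at h1
    have h2 : y = c ((π ^ (l - i + j)) y₁) := by rw [← h1, hc]
    exact (hcon _).2 h2

/-- **Two orthogonal odd functions, one of them integral: one of them is constant on the cycle.** -/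
theorem const_or_const (hl : l.Prime) (hl2 : l ≠ 2) (hcard : Fintype.card Y < 4 * l)
    (hπ : π ^ l = 1) (hc : ∀ y, c (c y) = y) (hcy : ∀ y, c y ≠ y) (hπc : ∀ y, π (c y) = c (π y))
    {y₁ : Y} (hy₁ : π y₁ ≠ y₁) (m : Y → ℤ) (d : Y → ℝ) (hm : ∀ y, m (c y) = - m y)
    (hd : ∀ y, d (c y) = - d y) (hrel : ∀ j : ℕ, ∑ y, (m ((π ^ j) y) : ℝ) * d y = 0) :
    (∀ j < l, m ((π ^ j) y₁) = m y₁) ∨ (∀ j < l, d ((π ^ j) y₁) = d y₁) := by
  -- the Fourier transforms
  let mh : ℂ → Y → ℂ := fun z y => ∑ j ∈ Finset.range l, z ^ j * (m ((π ^ j) y) : ℂ)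
  let dh : ℂ → Y → ℂ := fun z y => ∑ j ∈ Finset.range l, z ^ j * (d ((π ^ j) y) : ℂ)
  have hshift : ∀ (u : Y → ℂ) (z : ℂ), z ^ l = 1 → ∀ y,
      z * ∑ j ∈ Finset.range l, z ^ j * u ((π ^ j) (π y)) =
        ∑ j ∈ Finset.range l, z ^ j * u ((π ^ j) y) := by
    intro u z hz y
    rw [Finset.mul_sum]
    have h1 : ∀ j ∈ Finset.range l, z * (z ^ j * u ((π ^ j) (π y))) =
        z ^ (j + 1) * u ((π ^ (j + 1)) y) := by
      intro j _
      rw [pow_succ π, Equiv.Perm.mul_apply]
      ring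
    rw [Finset.sum_congr rfl h1]
    have h2 := Finset.sum_range_succ' (fun j => z ^ j * u ((π ^ j) y)) l
    have h3 := Finset.sum_range_succ (fun j => z ^ j * u ((π ^ j) y)) l
    rw [h3] at h2
    simp only [hz, hπ, pow_zero] at h2
    exact (add_right_cancel h2).symm
  have hprod : ∀ z : ℂ, z ^ l = 1 → z ≠ 1 → mh z y₁ * dh z⁻¹ y₁ = 0 := by
    intro z hz hz1
    have hz0 : z ≠ 0 := by
      rintro rfl
      rw [zero_pow hl.ne_zero] at hz
      exact zero_ne_one hz
    have hzi : z⁻¹ ^ l = 1 := by rw [inv_pow, hz, inv_one]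
    have hms : ∀ y, z * mh z (π y) = mh z y := fun y => hshift (fun y => (m y : ℂ)) z hz y
    have hds : ∀ y, z⁻¹ * dh z⁻¹ (π y) = dh z⁻¹ y := fun y =>
      hshift (fun y => (d y : ℂ)) z⁻¹ hzi y
    let P : Y → ℂ := fun y => mh z y * dh z⁻¹ y
    have hPπ : ∀ y, P (π y) = P y := by
      intro y
      change mh z (π y) * dh z⁻¹ (π y) = mh z y * dh z⁻¹ y
      rw [← hms y, ← hds y]
      have h1 : z * z⁻¹ = 1 := mul_inv_cancel₀ hz0
      calc mh z (π y) * dh z⁻¹ (π y) = (z * z⁻¹) * (mh z (π y) * dh z⁻¹ (π y)) := by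
            rw [h1, one_mul]
        _ = z * mh z (π y) * (z⁻¹ * dh z⁻¹ (π y)) := by ring
    have hPn : ∀ (n : ℕ) (y : Y), P ((π ^ n) y) = P y := by
      intro n
      induction n with
      | zero => intro y; rfl
      | succ n ih =>
        intro y
        rw [pow_succ', Equiv.Perm.mul_apply, hPπ, ih]
    have hPc : ∀ y, P (c y) = P y := by
      intro y
      have h1 : mh z (c y) = - mh z y := by
        change ∑ j ∈ Finset.range l, z ^ j * (m ((π ^ j) (c y)) : ℂ) =
          - ∑ j ∈ Finset.range l, z ^ j * (m ((π ^ j) y) : ℂ)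
        rw [← Finset.sum_neg_distrib]
        refine Finset.sum_congr rfl fun j _ => ?_
        rw [pow_comm hπc, hm]
        push_cast
        ring
      have h2 : dh z⁻¹ (c y) = - dh z⁻¹ y := by
        change ∑ j ∈ Finset.range l, z⁻¹ ^ j * (d ((π ^ j) (c y)) : ℂ) =
          - ∑ j ∈ Finset.range l, z⁻¹ ^ j * (d ((π ^ j) y) : ℂ)
        rw [← Finset.sum_neg_distrib]
        refine Finset.sum_congr rfl fun j _ => ?_
        rw [pow_comm hπc, hd]
        push_cast
        ring
      change mh z (c y) * dh z⁻¹ (c y) = mh z y * dh z⁻¹ y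
      rw [h1, h2]
      ring
    have hPf : ∀ y, π y = y → P y = 0 := by
      intro y hy
      have h1 := hms y
      rw [hy] at h1
      have h2 : (z - 1) * mh z y = 0 := by
        rw [sub_mul, h1, one_mul, sub_self]
      have h3 := (mul_eq_zero.1 h2).resolve_left (sub_ne_zero.2 hz1)
      change mh z y * dh z⁻¹ y = 0
      rw [h3, zero_mul]
    -- the sum over all elements
    have hrel' : ∀ j : ℕ, ∑ y, (m ((π ^ j) y) : ℂ) * (d y : ℂ) = 0 := by
      intro j
      have h1 := congrArg (fun x : ℝ => (x : ℂ)) (hrel j)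
      push_cast at h1
      exact h1
    have hsum0 : ∑ y, mh z y * (d y : ℂ) = 0 := by
      have h1 : ∀ y, mh z y * (d y : ℂ) =
          ∑ j ∈ Finset.range l, z ^ j * ((m ((π ^ j) y) : ℂ) * (d y : ℂ)) := by
        intro y
        change (∑ j ∈ Finset.range l, z ^ j * (m ((π ^ j) y) : ℂ)) * (d y : ℂ) = _
        rw [Finset.sum_mul]
        exact Finset.sum_congr rfl fun j _ => by ring
      rw [Finset.sum_congr rfl fun y _ => h1 y, Finset.sum_comm]
      refine Finset.sum_eq_zero fun j _ => ?_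
      rw [← Finset.mul_sum, hrel', mul_zero]
    have hmn : ∀ (n : ℕ) (y : Y), mh z ((π ^ n) y) = z⁻¹ ^ n * mh z y := by
      intro n
      induction n with
      | zero => intro y; simp
      | succ n ih =>
        intro y
        have h1 := hms ((π ^ n) y)
        rw [pow_succ', Equiv.Perm.mul_apply]
        have h2 : mh z (π ((π ^ n) y)) = z⁻¹ * mh z ((π ^ n) y) := by
          rw [← h1]
          field_simp
        rw [h2, ih]
        ring
    have hsumP : ∑ y, P y = 0 := by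
      have h1 : ∀ y, P y = ∑ n ∈ Finset.range l, mh z ((π ^ n) y) * (d ((π ^ n) y) : ℂ) := by
        intro y
        change mh z y * (∑ n ∈ Finset.range l, z⁻¹ ^ n * (d ((π ^ n) y) : ℂ)) = _
        rw [Finset.mul_sum]
        refine Finset.sum_congr rfl fun n _ => ?_
        rw [hmn]
        ring
      rw [Finset.sum_congr rfl fun y _ => h1 y, Finset.sum_comm]
      refine Finset.sum_eq_zero fun n _ => ?_
      rw [← hsum0]
      exact Equiv.sum_comp (π ^ n) (fun y => mh z y * (d y : ℂ))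
    have hPall : ∀ y, P y = if π y ≠ y then P y₁ else 0 := by
      intro y
      split_ifs with hy
      · obtain ⟨n, rfl | rfl⟩ := one_cycle hl hl2 hcard hπ hc hcy hπc hy₁ hy
        · exact hPn n y₁
        · rw [hPc, hPn]
      · exact hPf y (not_not.1 hy)
    rw [Finset.sum_congr rfl fun y _ => hPall y, ← Finset.sum_filter, Finset.sum_const,
      nsmul_eq_mul] at hsumP
    refine (mul_eq_zero.1 hsumP).resolve_left ?_
    refine Nat.cast_ne_zero.2 ?_
    exact Finset.card_ne_zero_of_mem (Finset.mem_filter.2 ⟨Finset.mem_univ y₁, hy₁⟩)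
  by_cases hM : ∃ z : ℂ, z ^ l = 1 ∧ z ≠ 1 ∧ mh z y₁ = 0
  · left
    obtain ⟨z, hz, hz1, hz0⟩ := hM
    have h1 := const_of_fourier hl.pos (fun j => (m ((π ^ j) y₁) : ℂ)) fun w hw hw1 =>
      fourier_int hl (fun j => m ((π ^ j) y₁)) hz hz1 hw hw1 hz0
    intro j hj
    have h2 := (h1 j hj).trans (h1 0 hl.pos).symm
    have h3 := mul_left_cancel₀ (Nat.cast_ne_zero.2 hl.ne_zero) h2
    have h4 : (m ((π ^ j) y₁) : ℂ) = (m ((π ^ 0) y₁) : ℂ) := h3
    exact_mod_cast h4
  · right
    push Not at hM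
    have h1 := const_of_fourier hl.pos (fun j => (d ((π ^ j) y₁) : ℂ)) fun w hw hw1 => by
      have hwi : w⁻¹ ^ l = 1 := by rw [inv_pow, hw, inv_one]
      have hwi1 : w⁻¹ ≠ 1 := fun h => hw1 (inv_eq_one.1 h)
      have h2 := hprod w⁻¹ hwi hwi1
      rw [inv_inv] at h2
      exact (mul_eq_zero.1 h2).resolve_left (hM _ hwi hwi1)
    intro j hj
    have h2 := (h1 j hj).trans (h1 0 hl.pos).symm
    have h3 := mul_left_cancel₀ (Nat.cast_ne_zero.2 hl.ne_zero) h2
    have h4 : (d ((π ^ j) y₁) : ℂ) = (d ((π ^ 0) y₁) : ℂ) := h3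
    exact_mod_cast h4

end perm

end Pool.Agent.D0H1.DS
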