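import Pool.Agent.N179.TL.Defs

/-!
# Dominant slopes: definitions
-/

set_option autoImplicit false

open CategoryTheory AlgebraicGeometry NumberField

universe u v

namespace Pool.Agent.D0H1.DS

open Polynomial Pool.Agent.H914 Pool.Agent.H914.VarClass Pool.Agent.H914.VarClass.Obj
  Pool.Agent.H914.WeilCohomology Pool.Agent.H281R3.HT Pool.Agent.W534 Pool.Agent.TH121.KT
  Pool.Agent.N179.TL

/-- The slope of `x` with respect to `q = p ^ m`: the `p`-adic valuation, normalised by
`slopeAt q = 1`. -/
noncomputable def slopeAt (p m : ℕ) [Fact p.Prime] (x : PadicAlgCl p) : ℝ :=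
  -Real.logb ((p : ℝ) ^ m) ‖x‖

/-- The linear combination of the slopes of `σ α` at the places `ι ∘ g`, `g` in the finite set `s` of
automorphisms, with the coefficients `c g` (for `s = {1}`, `c = 1` it is the slope of `σ α` at the
place `ι`). -/
noncomputable def slopeSum (p a : ℕ) [Fact p.Prime] (ι : AlgebraicClosure ℚ →+* PadicAlgCl p)
    {K : Type} [Field K] (α : K) (s : Finset (AlgebraicClosure ℚ ≃ₐ[ℚ] AlgebraicClosure ℚ))
    (c : (AlgebraicClosure ℚ ≃ₐ[ℚ] AlgebraicClosure ℚ) → ℝ) (σ : K →+* AlgebraicClosure ℚ) : ℝ :=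
  ∑ g ∈ s, c g * slopeAt p a (ι (g (σ α)))

/-- The number `α` in the CM field `K` has a *dominant slope* with *gap* `ε` in degree `n`: there are an
embedding `σ₁` of `K` and a combination of slopes, with coefficients whose absolute values have a sum
at most one (for instance the slope at the place `ι`), such that the absolute value of the combination
at `σ₁` is at least `ε` plus the sum of its absolute values at any set of fewer than `n` other
embeddings, none of them complex conjugate to `σ₁` and no two of them complex conjugate to each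
other. -/
def HasDominantSlope (p a : ℕ) [Fact p.Prime] (ι : AlgebraicClosure ℚ →+* PadicAlgCl p)
    {K : Type} [Field K] [NumberField K] [IsCMField K] (α : K) (n : ℕ) (ε : ℝ) : Prop :=
  ∃ (s : Finset (AlgebraicClosure ℚ ≃ₐ[ℚ] AlgebraicClosure ℚ))
    (c : (AlgebraicClosure ℚ ≃ₐ[ℚ] AlgebraicClosure ℚ) → ℝ) (σ₁ : K →+* AlgebraicClosure ℚ),
    ∑ g ∈ s, |c g| ≤ 1 ∧
    ∀ S : Finset (K →+* AlgebraicClosure ℚ), S.card < n →
      (∀ σ ∈ S, σ ≠ σ₁ ∧ σ ≠ σ₁.comp (IsCMField.complexConj K : K →+* K) ∧
        σ.comp (IsCMField.complexConj K : K →+* K) ∉ S) →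
      ε + ∑ σ ∈ S, |slopeSum p a ι α s c σ| ≤ |slopeSum p a ι α s c σ₁|

/-- The number `α` in the CM field `K` has a *tight slope*: there are an embedding `σ₁` and a combination
of slopes (for instance the slope at the place `ι`) which is not zero at `σ₁`, such that the sum of its
absolute values at the embeddings other than `σ₁` and the complex conjugate one is at most twice the
absolute value at `σ₁`; and for every CM subfield `F` of `K` other than `K`, the combination is not zero
for all conjugates of the norm of `α` from `K` to `F`. -/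
def HasTightSlope (p a : ℕ) [Fact p.Prime] (ι : AlgebraicClosure ℚ →+* PadicAlgCl p)
    {K : Type} [Field K] [NumberField K] (α : K) : Prop :=
  ∃ (s : Finset (AlgebraicClosure ℚ ≃ₐ[ℚ] AlgebraicClosure ℚ))
    (c : (AlgebraicClosure ℚ ≃ₐ[ℚ] AlgebraicClosure ℚ) → ℝ) (σ₁ : K →+* AlgebraicClosure ℚ),
    slopeSum p a ι α s c σ₁ ≠ 0 ∧
    ∑ σ : K →+* AlgebraicClosure ℚ, |slopeSum p a ι α s c σ| ≤ 4 * |slopeSum p a ι α s c σ₁| ∧
    ∀ F : IntermediateField ℚ K, F ≠ ⊤ → IsCMField F →
      ∃ τ : F →+* AlgebraicClosure ℚ, slopeSum p a ι (Algebra.norm F α) s c τ ≠ 0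

/-- The number `α` in the CM field `K` has a *large prime*: some prime number `l > 2` with
`4 l > [K : ℚ]` divides the degree of the normal closure of `K`; and there is a combination of slopes
(for instance the slope at the place `ι`) which is not zero at some embedding of `K`, and such that for
each imaginary quadratic subfield `F` of `K` it is not zero for all conjugates of the norm of `α` from
`K` to `F`, and takes different values at two embeddings of `K` which agree on `F`. -/
def HasLargePrime (p a : ℕ) [Fact p.Prime] (ι : AlgebraicClosure ℚ →+* PadicAlgCl p)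
    {K : Type} [Field K] [NumberField K] (α : K) : Prop :=
  ∃ (l : ℕ) (s : Finset (AlgebraicClosure ℚ ≃ₐ[ℚ] AlgebraicClosure ℚ))
    (c : (AlgebraicClosure ℚ ≃ₐ[ℚ] AlgebraicClosure ℚ) → ℝ) (σ₁ : K →+* AlgebraicClosure ℚ),
    l.Prime ∧ 2 < l ∧ Module.finrank ℚ K < 4 * l ∧
    l ∣ Module.finrank ℚ (IntermediateField.normalClosure ℚ K (AlgebraicClosure ℚ)) ∧
    slopeSum p a ι α s c σ₁ ≠ 0 ∧
    ∀ F : IntermediateField ℚ K, Module.finrank ℚ F = 2 → IsCMField F →
      (∃ τ : F →+* AlgebraicClosure ℚ, slopeSum p a ι (Algebra.norm F α) s c τ ≠ 0) ∧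
      ∃ σ σ' : K →+* AlgebraicClosure ℚ, σ.comp (algebraMap F K) = σ'.comp (algebraMap F K) ∧
        slopeSum p a ι α s c σ ≠ slopeSum p a ι α s c σ'

/-- Either `ε` is positive and `α` has a dominant slope with gap `ε` in degree `n`, or `ε` is zero and
`α` has a tight slope or a large prime. -/
def Dominates (p a : ℕ) [Fact p.Prime] (ι : AlgebraicClosure ℚ →+* PadicAlgCl p)
    {K : Type} [Field K] [NumberField K] [IsCMField K] (α : K) (n : ℕ) (ε : ℝ) : Prop :=
  (0 < ε ∧ HasDominantSlope p a ι α n ε) ∨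
    (ε = 0 ∧ (HasTightSlope p a ι α ∨ HasLargePrime p a ι α))

/-- `ν` is a root of a nonzero rational polynomial `Q`, and some automorphism `h` of the algebraic
closure of `ℚ`, which is the complex conjugation on all conjugates of the CM field `K`, changes the
slopes (normalised by `slopeAt (p ^ m) = 1`) of the roots of `Q` by less than `2 ε` or not at all. -/
def HasNarrowSlopes (p m : ℕ) [Fact p.Prime] (ι : AlgebraicClosure ℚ →+* PadicAlgCl p)
    (K : Type) [Field K] [NumberField K] [IsCMField K] (ε : ℝ) {Ω : Type*} [Field Ω] [CharZero Ω]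
    (ν : Ω) : Prop :=
  ∃ (Q : ℚ[X]) (h : AlgebraicClosure ℚ ≃ₐ[ℚ] AlgebraicClosure ℚ), Q ≠ 0 ∧ aeval ν Q = 0 ∧
    (∀ (σ : K →+* AlgebraicClosure ℚ) (x : K), h (σ x) = σ (IsCMField.complexConj K x)) ∧
    ∀ β : AlgebraicClosure ℚ, aeval β Q = 0 →
      slopeAt p m (ι (h β)) = slopeAt p m (ι β) ∨
      |slopeAt p m (ι (h β)) - slopeAt p m (ι β)| < 2 * ε

/-- All eigenvalues of the Frobenius endomorphism of `U` (over the field with `p ^ Φ.e U` elements) on
the cohomology of `U` satisfy `HasNarrowSlopes`. -/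
def NarrowSlopes {k : Type u} [Field k] {𝒱 : VarClass k} {ops : CycleOps 𝒱}
    {W : WeilCohomology.{u, v} ops} {p : ℕ} [Fact p.Prime] (Φ : FrobSystem W p)
    (ι : AlgebraicClosure ℚ →+* PadicAlgCl p) (K : Type) [Field K] [NumberField K] [IsCMField K]
    (ε : ℝ) (U : 𝒱.Obj) : Prop :=
  ∀ ν : W.K, Module.End.HasEigenvalue (W.map (Φ.Fr U)).toLinearMap ν →
    HasNarrowSlopes p (Φ.e U) ι K ε ν

/-- The vector space `V` is spanned by the subspace `A` and the vectors `x i`. -/
def SpanTogether {F V I : Type*} [Field F] [AddCommGroup V] [Module F V] (A : Submodule F V)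
    (x : I → V) : Prop :=
  A ⊔ Submodule.span F (Set.range x) = ⊤

/-- The cohomology of `X` is spanned by the classes of algebraic cycles and by one eigenvector `x σ` in
the middle degree for each embedding `σ` of `K` in the coefficient field, with an eigenvalue which is,
up to a root of unity, `q ^ (dim X / 2)` times an `e`-th root of `σ α`; and all powers of `α` generate
the field `K`. -/
structure HasSimpleWeilNumber {k : Type u} [Field k] {𝒱 : VarClass k} {ops : CycleOps 𝒱}
    {W : WeilCohomology.{u, v} ops} {p : ℕ} (Φ : FrobSystem W p) (X : 𝒱.Obj) (e : ℕ)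
    {K : Type} [Field K] [NumberField K] (α : K) : Prop where
  pos : 0 < e
  powers : ∀ s : ℕ, 0 < s → IntermediateField.adjoin ℚ {α ^ s} = ⊤
  spanned : ∃ x : (K →+* W.K) → W.H X, (∀ σ, IsLetter Φ X e α σ (x σ)) ∧
    SpanTogether (algSpan W X) x

end Pool.Agent.D0H1.DS
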