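import Pool.Agent.D0H1.DS.Defs
import Pool.Agent.N179.TL.Wd

/-!
# The Tate conjecture for the square of a variety with simple Frobenius eigenvalues
-/

set_option autoImplicit false
set_option linter.unusedSectionVars false

open CategoryTheory AlgebraicGeometry NumberField
open scoped TensorProduct

universe u v

namespace Pool.Agent.D0H1.DS

open Pool.Agent.H914 Pool.Agent.H914.VarClass Pool.Agent.H914.VarClass.Obj
  Pool.Agent.H914.WeilCohomology Pool.Agent.H281R3.HT Pool.Agent.W552 Pool.Agent.W534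
  Pool.Agent.W458.RK Pool.Agent.W458.MF Pool.Agent.TH132.A Pool.Agent.W536.RR
  Pool.Agent.TH121.KT Pool.Agent.N179.TL Pool.Agent.H447 Pool.Agent.Y138.TU

section lin

variable {F V : Type*} [Field F] [AddCommGroup V] [Module F V]

/-- `y` is a combination of elements of `G s` for all large `s`, in the sense of divisibility -/
def Ev (F : Type*) {V : Type*} [Field F] [AddCommGroup V] [Module F V] (G : ℕ → Set V) (y : V) :
    Prop :=
  ∃ t₀, 0 < t₀ ∧ ∀ t, 0 < t → y ∈ Submodule.span F (G (t₀ * t))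

theorem Ev.zero (G : ℕ → Set V) : Ev F G 0 := ⟨1, one_pos, fun _ _ => Submodule.zero_mem _⟩

theorem Ev.add {G : ℕ → Set V} {x y : V} (hx : Ev F G x) (hy : Ev F G y) : Ev F G (x + y) := by
  obtain ⟨a, ha, h⟩ := hx
  obtain ⟨b, hb, h'⟩ := hy
  refine ⟨a * b, Nat.mul_pos ha hb, fun t ht => Submodule.add_mem _ ?_ ?_⟩
  · rw [mul_assoc]
    exact h _ (Nat.mul_pos hb ht)
  · rw [show a * b * t = b * (a * t) by ring]
    exact h' _ (Nat.mul_pos ha ht)

theorem Ev.smul {G : ℕ → Set V} {x : V} (c : F) (hx : Ev F G x) : Ev F G (c • x) := by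
  obtain ⟨a, ha, h⟩ := hx
  exact ⟨a, ha, fun t ht => Submodule.smul_mem _ _ (h t ht)⟩

/-- eigenvectors with different eigenvalues whose sum is in an invariant subspace -/
theorem mem_of_sum {ι : Type*} [DecidableEq ι] (T : Module.End F V) (U : Submodule F V)
    (hU : ∀ v ∈ U, T v ∈ U) (μ : ι → F) (s : Finset ι) (hμ : ∀ i ∈ s, ∀ j ∈ s, μ i = μ j → i = j) :
    ∀ y : ι → V, (∀ i ∈ s, T (y i) = μ i • y i) → ∑ i ∈ s, y i ∈ U → ∀ i ∈ s, y i ∈ U := by
  induction s using Finset.induction_on with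
  | empty =>
    intro y _ _ i hi
    exact absurd hi (Finset.notMem_empty i)
  | insert a s ha ih =>
    intro y hy hsum
    rw [Finset.sum_insert ha] at hsum
    have h1 : ∑ i ∈ s, (μ i - μ a) • y i ∈ U := by
      have h2 := Submodule.sub_mem _ (hU _ hsum) (Submodule.smul_mem _ (μ a) hsum)
      have h3 : T (y a + ∑ i ∈ s, y i) - μ a • (y a + ∑ i ∈ s, y i) =
          ∑ i ∈ s, (μ i - μ a) • y i := by
        rw [map_add, map_sum, hy a (Finset.mem_insert_self a s),
          Finset.sum_congr rfl fun i hi => hy i (Finset.mem_insert_of_mem hi), smul_add,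
          Finset.smul_sum, add_sub_add_left_eq_sub, ← Finset.sum_sub_distrib]
        exact Finset.sum_congr rfl fun i _ => (sub_smul _ _ _).symm
      rwa [h3] at h2
    have h2 : ∀ i ∈ s, (μ i - μ a) • y i ∈ U := by
      refine ih (fun i hi j hj h => hμ i (Finset.mem_insert_of_mem hi) j
        (Finset.mem_insert_of_mem hj) h) (fun i => (μ i - μ a) • y i) ?_ h1
      intro i hi
      rw [map_smul, hy i (Finset.mem_insert_of_mem hi), smul_comm]
    have h3 : ∀ i ∈ s, y i ∈ U := by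
      intro i hi
      refine (Submodule.smul_mem_iff _ ?_).1 (h2 i hi)
      rw [sub_ne_zero]
      intro h
      have := hμ i (Finset.mem_insert_of_mem hi) a (Finset.mem_insert_self a s) h
      exact ha (this ▸ hi)
    intro i hi
    rcases Finset.mem_insert.1 hi with rfl | hi
    · have h4 := Submodule.sub_mem _ hsum (Submodule.sum_mem U h3)
      rwa [add_sub_cancel_right] at h4
    · exact h3 i hi

end lin

variable {k : Type u} [Field k] {𝒱 : VarClass k} {ops : CycleOps 𝒱}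
  {W : WeilCohomology.{u, v} ops} {p : ℕ} [Fact p.Prime] {Φ : FrobSystem W p} {X : 𝒱.Obj}
  {e : ℕ} {K : Type} [Field K] [NumberField K] [IsCMField K] {α : K}

/-- the data of simple eigenvalues -/
structure SD (Φ : FrobSystem W p) (X : 𝒱.Obj) (e : ℕ) (α : K) (x : (K →+* W.K) → W.H X)
    (μ : (K →+* W.K) → W.K) (N : ℕ) : Prop where
  epos : 0 < e
  Npos : 0 < N
  unit : ∀ φ : K →+* ℂ, ‖φ α‖ = 1
  powers : ∀ s : ℕ, 0 < s → IntermediateField.adjoin ℚ {α ^ s} = ⊤
  gr : ∀ σ, x σ ∈ W.gr X X.dim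
  eig : ∀ σ, W.map (Φ.Fr X) (x σ) = μ σ • x σ
  rel : ∀ σ, μ σ ^ (2 * e * N) = (p : W.K) ^ (Φ.e X * (X.dim * (e * N))) * σ α ^ (2 * N)
  span : algSpan W X ⊔ Submodule.span W.K (Set.range x) = ⊤

theorem exists_sd (hX : HasSimpleWeilNumber Φ X e α) (hu : ∀ φ : K →+* ℂ, ‖φ α‖ = 1) :
    ∃ (x : (K →+* W.K) → W.H X) (μ : (K →+* W.K) → W.K) (N : ℕ), SD Φ X e α x μ N := by
  classical
  obtain ⟨x, hx, hsp⟩ := hX.spanned
  choose hgr μ M hM hμ hrel using hx
  refine ⟨x, μ, ∏ σ, M σ, hX.pos, Finset.prod_pos fun σ _ => hM σ, hu, hX.powers, hgr, hμ,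
    fun σ => ?_, hsp⟩
  rw [← Finset.mul_prod_erase Finset.univ M (Finset.mem_univ σ)]
  set E := ∏ τ ∈ Finset.univ.erase σ, M τ
  have h1 : 2 * e * (M σ * E) = 2 * e * M σ * E := by ring
  rw [h1, pow_mul, hrel, mul_pow, ← pow_mul, ← pow_mul]
  congr 1
  · congr 1
    ring
  · congr 1
    ring

section facts

theorem ext_of_power (hpow : ∀ s : ℕ, 0 < s → IntermediateField.adjoin ℚ {α ^ s} = ⊤)
    {A : Type*} [Field A] [CharZero A] {σ τ : K →+* A} {s : ℕ} (hs : 0 < s)
    (h : σ α ^ s = τ α ^ s) : σ = τ := by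
  have h1 : ∀ x ∈ IntermediateField.adjoin ℚ {α ^ s}, σ x = τ x := by
    intro x hx
    induction hx using IntermediateField.adjoin_induction with
    | mem x hx =>
      rw [Set.mem_singleton_iff.1 hx, map_pow, map_pow, h]
    | algebraMap x => rw [eq_ratCast, map_ratCast, map_ratCast]
    | add x y _ _ hx hy => rw [map_add, map_add, hx, hy]
    | inv x _ hx => rw [map_inv₀, map_inv₀, hx]
    | mul x y _ _ hx hy => rw [map_mul, map_mul, hx, hy]
  ext x
  exact h1 x (by rw [hpow s hs]; exact IntermediateField.mem_top)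

theorem not_power (hu : ∀ φ : K →+* ℂ, ‖φ α‖ = 1)
    (hpow : ∀ s : ℕ, 0 < s → IntermediateField.adjoin ℚ {α ^ s} = ⊤)
    {A : Type*} [Field A] [CharZero A] {σ : K →+* A} {s : ℕ} (hs : 0 < s) {z : ℤ}
    (h : σ α ^ s = (p : A) ^ z) : False := by
  have hp1 : (1 : ℝ) < p := by exact_mod_cast (Fact.out : p.Prime).one_lt
  have h1 : α ^ s = (p : K) ^ z := by
    apply σ.injective
    rw [map_pow, h, map_zpow₀, map_natCast]
  obtain ⟨φ⟩ : Nonempty (K →+* ℂ) := inferInstance
  have h2 := congrArg (fun x => ‖φ x‖) h1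
  simp only [map_pow, map_zpow₀, map_natCast, norm_pow, norm_zpow, hu φ, one_pow,
    Complex.norm_natCast] at h2
  have h3 : z = 0 := (zpow_eq_one_iff_right₀ (zero_le_one.trans hp1.le) hp1.ne').1 h2.symm
  rw [h3, zpow_zero] at h1
  have h4 := hpow s hs
  rw [h1] at h4
  have h5 : (⊥ : IntermediateField ℚ K) = ⊤ := by
    rw [← h4]
    symm
    rw [IntermediateField.adjoin_simple_eq_bot_iff]
    exact one_mem _
  have h6 : Module.finrank ℚ K = 1 := by
    rw [← IntermediateField.finrank_top', ← h5, IntermediateField.finrank_bot]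
  have h7 : IsTotallyComplex K := inferInstance
  have h8 := IsTotallyComplex.finrank K
  omega

variable {x : (K →+* W.K) → W.H X} {μ : (K →+* W.K) → W.K} {N : ℕ} (h : SD Φ X e α x μ N)

include h

theorem rel_pow (σ : K →+* W.K) (s : ℕ) : (μ σ ^ s) ^ (2 * e * N) =
    (p : W.K) ^ (Φ.e X * (X.dim * (e * N)) * s) * σ α ^ (2 * N * s) := by
  rw [← pow_mul, mul_comm s, pow_mul, h.rel, mul_pow, ← pow_mul, ← pow_mul]

/-- no eigenvalue is a power of `q` -/
theorem R1 (τ : K →+* W.K) {s : ℕ} (hs : 0 < s) (j : ℕ) :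
    (card Φ X s : W.K) ^ j * μ τ ^ s ≠ (card Φ X s : W.K) ^ X.dim := by
  intro heq
  have hp0 : (p : W.K) ≠ 0 := by exact_mod_cast (Fact.out : p.Prime).ne_zero
  have h1 := congrArg (fun z => z ^ (2 * e * N)) heq
  simp only [mul_pow, rel_pow h, card_pow] at h1
  rw [← pow_mul, ← pow_mul] at h1
  have hs' : 0 < 2 * N * s := Nat.mul_pos (Nat.mul_pos two_pos h.Npos) hs
  refine not_power (p := p) h.unit h.powers (σ := τ) hs' (z := ((Φ.e X * s * X.dim * (2 * e * N) : ℕ) : ℤ) -
    (Φ.e X * s * j * (2 * e * N) : ℕ) - (Φ.e X * (X.dim * (e * N)) * s : ℕ)) ?_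
  rw [zpow_sub₀ hp0, zpow_sub₀ hp0, zpow_natCast, zpow_natCast, zpow_natCast, ← h1]
  field_simp

/-- products of two eigenvalues -/
theorem R2 {ρ τ : K →+* W.K} {s : ℕ} (hs : 0 < s)
    (heq : μ ρ ^ s * μ τ ^ s = (card Φ X s : W.K) ^ X.dim) : τ = cj ρ := by
  have hp0 : (p : W.K) ≠ 0 := by exact_mod_cast (Fact.out : p.Prime).ne_zero
  have h1 := congrArg (fun z => z ^ (2 * e * N)) heq
  simp only [mul_pow, rel_pow h, card_pow] at h1
  have hs' : 0 < 2 * N * s := Nat.mul_pos (Nat.mul_pos two_pos h.Npos) hs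
  refine ext_of_power h.powers hs' ?_
  have hρ : ρ α ^ (2 * N * s) ≠ 0 := pow_ne_zero _ (by
    rw [ne_eq, map_eq_zero]
    exact TH121.KT.alpha_ne h.unit)
  rw [cj_val h.unit, inv_pow]
  refine eq_inv_of_mul_eq_one_right ?_
  have h2 : (p : W.K) ^ (Φ.e X * (X.dim * (e * N)) * s) *
      (p : W.K) ^ (Φ.e X * (X.dim * (e * N)) * s) ≠ 0 :=
    mul_ne_zero (pow_ne_zero _ hp0) (pow_ne_zero _ hp0)
  apply mul_left_cancel₀ h2
  rw [mul_one]
  calc _ = (p : W.K) ^ (Φ.e X * (X.dim * (e * N)) * s) * ρ α ^ (2 * N * s) *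
        ((p : W.K) ^ (Φ.e X * (X.dim * (e * N)) * s) * τ α ^ (2 * N * s)) := by ring
    _ = _ := by
      rw [h1, ← pow_mul, ← pow_add]
      congr 1
      ring

/-- the eigenvalues are different -/
theorem R3 {ρ τ : K →+* W.K} (heq : μ ρ = μ τ) : ρ = τ := by
  have hp0 : (p : W.K) ≠ 0 := by exact_mod_cast (Fact.out : p.Prime).ne_zero
  have h1 := congrArg (fun z => z ^ (2 * e * N)) heq
  simp only [h.rel] at h1
  exact ext_of_power h.powers (Nat.mul_pos two_pos h.Npos)
    (mul_left_cancel₀ (pow_ne_zero _ hp0) h1)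

theorem frob_x (s : ℕ) (σ : K →+* W.K) : frob Φ X s (x σ) = μ σ ^ s • x σ := by
  rw [frob_pow_eq']
  induction s with
  | zero => rw [pow_zero, pow_zero, one_smul]; rfl
  | succ s ih =>
    rw [pow_succ', Module.End.mul_apply, ih, map_smul]
    change μ σ ^ s • W.map (Φ.Fr X) (x σ) = _
    rw [h.eig, smul_smul, pow_succ]

/-- the trace of an eigenvector -/
theorem tr_zero {s : ℕ} {z : W.H X} {c : W.K} (hz : frob Φ X s z = c • z)
    (hc : c ≠ (card Φ X s : W.K) ^ X.dim) : W.tr X z = 0 := by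
  have h1 := tr_iter Φ s z
  change W.tr X (frob Φ X s z) = _ at h1
  rw [hz, map_smul, smul_eq_mul, ← card_pow] at h1
  have h2 : (c - (card Φ X s : W.K) ^ X.dim) * W.tr X z = 0 := by
    rw [sub_mul, h1, sub_self]
  exact (mul_eq_zero.1 h2).resolve_left (sub_ne_zero.2 hc)

theorem tr_alg {b : W.H X} (hb : b ∈ algSpan W X) (τ : K →+* W.K) : W.tr X (b * x τ) = 0 := by
  refine algSpan_induction (p := fun b => W.tr X (b * x τ) = 0) ?_ ?_ ?_ ?_ hb
  · rw [zero_mul, map_zero]
  · intro a b ha hb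
    rw [add_mul, map_add, ha, hb, add_zero]
  · intro t a ha
    rw [smul_mul_assoc, map_smul, ha, smul_zero]
  · intro j z hz
    obtain ⟨s, hs, h1⟩ := Φ.cyc hz
    have h2 : frob Φ X s (W.cl X z) = (card Φ X s : W.K) ^ j • W.cl X z := by
      rw [card_pow]
      exact h1
    refine tr_zero h (s := s) (c := (card Φ X s : W.K) ^ j * μ τ ^ s) ?_ (R1 h τ hs j)
    rw [frob_mul_apply, h2, frob_x h, smul_mul_smul_comm]

theorem tr_pair {ρ τ : K →+* W.K} (hne : τ ≠ cj ρ) : W.tr X (x ρ * x τ) = 0 := by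
  refine tr_zero h (s := 1) (c := μ ρ ^ 1 * μ τ ^ 1) ?_ (fun heq => hne (R2 h one_pos heq))
  rw [frob_mul_apply, frob_x h, frob_x h, smul_mul_smul_comm]

omit h in
/-- the eigenvectors of level `s` -/
def Good (Φ : FrobSystem W p) (x : (K →+* W.K) → W.H X)
    (μ : (K →+* W.K) → W.K) (s : ℕ) (y : W.H X) (ν : W.K) : Prop :=
  frob Φ X s y = ν • y ∧ ((y ∈ algSpan W X ∧ ∃ j : ℕ, ν = (card Φ X s : W.K) ^ j) ∨
    ∃ σ, y = x σ ∧ ν = μ σ ^ s)

theorem span1 (y : W.H X) : Ev W.K (fun s => {y' | ∃ ν, Good Φ x μ s y' ν}) y := by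
  have h1 : y ∈ algSpan W X ⊔ Submodule.span W.K (Set.range x) := by
    rw [h.span]
    exact Submodule.mem_top
  obtain ⟨a, ha, b, hb, rfl⟩ := Submodule.mem_sup.1 h1
  clear h1
  refine Ev.add ?_ ?_
  · refine algSpan_induction (p := fun a => Ev W.K (fun s => {y' | ∃ ν, Good Φ x μ s y' ν}) a)
      (Ev.zero _) (fun _ _ => Ev.add) (fun t _ => Ev.smul t) ?_ ha
    intro j z hz
    obtain ⟨b, hb, h1⟩ := Φ.cyc hz
    have h2 : frob Φ X b (W.cl X z) = (card Φ X b : W.K) ^ j • W.cl X z := by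
      rw [card_pow]
      exact h1
    exact ⟨b, hb, fun t _ => Submodule.subset_span ⟨_, eig_pow h2 t,
      Or.inl ⟨cl_mem_algSpan hz, j, rfl⟩⟩⟩
  · induction hb using Submodule.span_induction with
    | mem y hy =>
      obtain ⟨σ, rfl⟩ := hy
      exact ⟨1, one_pos, fun t _ => Submodule.subset_span ⟨_, frob_x h _ σ,
        Or.inr ⟨σ, rfl, rfl⟩⟩⟩
    | zero => exact Ev.zero _
    | add _ _ _ _ hx hy => exact hx.add hy
    | smul c _ _ hx => exact hx.smul c

theorem span2 (w : W.H X ⊗[W.K] W.H X) :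
    Ev W.K (fun s => {v | ∃ y y' ν ν', Good Φ x μ s y ν ∧ Good Φ x μ s y' ν' ∧
      v = y ⊗ₜ[W.K] y'}) w := by
  induction w using TensorProduct.induction_on with
  | zero => exact Ev.zero _
  | add _ _ hx hy => exact hx.add hy
  | tmul y y' =>
    obtain ⟨a, ha, h1⟩ := span1 h y
    obtain ⟨b, hb, h2⟩ := span1 h y'
    refine ⟨a * b, Nat.mul_pos ha hb, fun t ht => ?_⟩
    have h3 := h1 (b * t) (Nat.mul_pos hb ht)
    have h4 := h2 (a * t) (Nat.mul_pos ha ht)
    rw [← mul_assoc] at h3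
    rw [show b * (a * t) = a * b * t by ring] at h4
    clear h1 h2
    generalize a * b * t = s at h3 h4 ⊢
    induction h3 using Submodule.span_induction with
    | mem y hy =>
      obtain ⟨ν, hν⟩ := hy
      induction h4 using Submodule.span_induction with
      | mem y' hy' =>
        obtain ⟨ν', hν'⟩ := hy'
        exact Submodule.subset_span ⟨y, y', ν, ν', hν, hν', rfl⟩
      | zero => rw [TensorProduct.tmul_zero]; exact Submodule.zero_mem _
      | add _ _ _ _ hx hy => rw [TensorProduct.tmul_add]; exact Submodule.add_mem _ hx hy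
      | smul c _ _ hx => rw [TensorProduct.tmul_smul]; exact Submodule.smul_mem _ _ hx
    | zero => rw [TensorProduct.zero_tmul]; exact Submodule.zero_mem _
    | add _ _ _ _ hx hy => rw [TensorProduct.add_tmul]; exact Submodule.add_mem _ hx hy
    | smul c _ _ hx =>
      rw [← TensorProduct.smul_tmul']; exact Submodule.smul_mem _ _ hx

omit h in
/-- the sums of external products of algebraic classes -/
noncomputable def AA (W : WeilCohomology.{u, v} ops) (X : 𝒱.Obj) : Submodule W.K (W.H (X.prod X)) :=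
  Submodule.span W.K {z | ∃ b ∈ algSpan W X, ∃ b' ∈ algSpan W X, z = ext W b b'}

omit h in
/-- the external products of opposite eigenvectors -/
noncomputable def YY (x : (K →+* W.K) → W.H X) (σ : K →+* W.K) : W.H (X.prod X) :=
  ext W (x σ) (x (cj σ))

theorem claim1 {c : W.H (X.prod X)} {s : ℕ} (hs : 0 < s)
    (hc : frob Φ (X.prod X) s c = (card Φ (X.prod X) s : W.K) ^ X.dim • c) :
    c ∈ AA W X ⊔ Submodule.span W.K (Set.range (YY x)) := by
  obtain ⟨A, B, C, hA, hB, hC, hAB, hAC, hcomm⟩ := exists_comm Φ X X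
  have hBC : B = C := by
    have h1 : B * Φ.e X = C * Φ.e X := hAB.symm.trans hAC
    exact Nat.eq_of_mul_eq_mul_right (Φ.e_pos X) h1
  subst hBC
  obtain ⟨w, rfl⟩ := (W.kunneth X X).2 c
  obtain ⟨t₀, ht₀, hspan⟩ := span2 h w
  set S := B * (s * t₀) with hS
  have hSpos : 0 < S := Nat.mul_pos hB (Nat.mul_pos hs ht₀)
  have hcard : card Φ (X.prod X) (A * (s * t₀)) = card Φ X S := by
    rw [W534.card, W534.card]
    congr 1
    calc Φ.e (X.prod X) * (A * (s * t₀)) = (A * Φ.e (X.prod X)) * (s * t₀) := by ring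
      _ = _ := by rw [hAB]; ring
  have h1 := eig_pow hc (A * t₀)
  rw [show s * (A * t₀) = A * (s * t₀) by ring, hcomm (s * t₀) w, hcard, ← map_smul] at h1
  have h2 := (W.kunneth X X).1 h1
  have h3 := hspan (B * s) (Nat.mul_pos hB hs)
  rw [show t₀ * (B * s) = S by rw [hS]; ring] at h3
  set T : Module.End W.K (W.H X ⊗[W.K] W.H X) :=
    TensorProduct.map (frob Φ X S) (frob Φ X S) with hT
  have heig : ∀ v ∈ {v | ∃ y y' ν ν', Good Φ x μ S y ν ∧ Good Φ x μ S y' ν' ∧
      v = y ⊗ₜ[W.K] y'}, ∃ ν : W.K, v ∈ T.maxGenEigenspace ν := by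
    rintro v ⟨y, y', ν, ν', h4, h5, rfl⟩
    refine ⟨ν * ν', eig_mem_gen ?_⟩
    rw [hT, TensorProduct.map_tmul, h4.1, h5.1, TensorProduct.smul_tmul_smul]
  have h4 := mem_span_gen (T := T) heig h3 (eig_mem_gen h2)
  clear h1 h2 h3 hspan hc
  induction h4 using Submodule.span_induction with
  | mem v hv =>
    obtain ⟨⟨y, y', ν, ν', h5, h6, rfl⟩, h7⟩ := hv
    by_cases hv0 : y ⊗ₜ[W.K] y' = 0
    · rw [hv0, map_zero]
      exact Submodule.zero_mem _
    have h8 : ν * ν' = (card Φ X S : W.K) ^ X.dim := by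
      refine eq_of_mem_gen (T := T) (eig_mem_gen ?_) h7 hv0
      rw [hT, TensorProduct.map_tmul, h5.1, h6.1, TensorProduct.smul_tmul_smul]
    change W.map (fst X X) y * W.map (snd X X) y' ∈ _
    rcases h5.2 with ⟨hy, j, rfl⟩ | ⟨σ, rfl, rfl⟩
    · rcases h6.2 with ⟨hy', j', rfl⟩ | ⟨τ, rfl, rfl⟩
      · exact Submodule.mem_sup_left (Submodule.subset_span ⟨y, hy, y', hy', rfl⟩)
      · exact absurd h8 (R1 h τ hSpos j)
    · rcases h6.2 with ⟨hy', j', rfl⟩ | ⟨τ, rfl, rfl⟩
      · rw [mul_comm] at h8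
        exact absurd h8 (R1 h σ hSpos j')
      · rw [R2 h hSpos h8]
        exact Submodule.mem_sup_right (Submodule.subset_span ⟨σ, rfl⟩)
  | zero => rw [map_zero]; exact Submodule.zero_mem _
  | add _ _ _ _ hx hy => rw [map_add]; exact Submodule.add_mem _ hx hy
  | smul c _ _ hx => rw [map_smul]; exact Submodule.smul_mem _ _ hx

omit h in
theorem AA_le : AA W X ≤ algSpan W (X.prod X) := by
  rw [AA, Submodule.span_le]
  rintro _ ⟨b, hb, b', hb', rfl⟩
  exact algSpan_mul (algSpan_map _ hb) (algSpan_map _ hb')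

omit h in
theorem corr_ext {b y : W.H X} {b' : W.H X} (hb' : b' ∈ algSpan W X) :
    W.corr (ext W b b') y = W.tr X (b * y) • b' := by
  rw [W.corr_apply, ext, mul_assoc, algSpan_comm (algSpan_map (snd X X) hb') _, ← mul_assoc,
    ← map_mul, W.push_snd]

theorem corr_AA {a : W.H (X.prod X)} (ha : a ∈ AA W X) (τ : K →+* W.K) :
    W.corr a (x τ) = 0 := by
  rw [AA] at ha
  induction ha using Submodule.span_induction with
  | mem a ha =>
    obtain ⟨b, hb, b', hb', rfl⟩ := ha
    rw [corr_ext hb', tr_alg h hb, zero_smul]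
  | zero => rw [W.corr_zero]; rfl
  | add _ _ _ _ hx hy => rw [W.corr_add, LinearMap.add_apply, hx, hy, add_zero]
  | smul c _ _ hx => rw [W.corr_smul, LinearMap.smul_apply, hx, smul_zero]

theorem corr_YY {ρ τ : K →+* W.K} (hne : τ ≠ cj ρ) : W.corr (YY x ρ) (x τ) = 0 := by
  rw [W.corr_apply, YY, ext, mul_assoc,
    W.comm (W.map_mem (snd X X) (h.gr (cj ρ))) (W.map_mem (fst X X) (h.gr τ)), mul_smul_comm,
    ← mul_assoc, ← map_mul, map_smul, W.push_snd, tr_pair h hne, zero_smul, smul_zero]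

theorem cj_ne' {σ τ : K →+* W.K} (hne : σ ≠ τ) : cj σ ≠ cj τ := by
  intro h1
  apply hne
  rw [← TH121.KT.cj_cj σ, h1, TH121.KT.cj_cj]

/-- **The products of opposite eigenvectors are algebraic.** -/
theorem claim2 (σ : K →+* W.K) : YY x σ ∈ algSpan W (X.prod X) := by
  classical
  -- the diagonal
  have hdim : 0 + (X.prod X).dim = X.dim + X.dim := by rw [dim_prod, zero_add]
  obtain ⟨s, hs, hΔ⟩ := Φ.cyc (ops.push_mem (diag X) X.V.fundCycle_mem hdim)
  have hcl : W.cl (X.prod X) (ops.push (diag X) X.V.fundCycle) = W.push (diag X) 1 := by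
    rw [W.cl_push, W.cl_fund]
  rw [hcl] at hΔ
  have h1 : frob Φ (X.prod X) s (W.push (diag X) 1) =
      (card Φ (X.prod X) s : W.K) ^ X.dim • W.push (diag X) (1 : W.H X) := by
    rw [card_pow]
    exact hΔ
  have h2 := claim1 h hs h1
  obtain ⟨a, ha, b, hb, hab⟩ := Submodule.mem_sup.1 h2
  obtain ⟨c, rfl⟩ := (Submodule.mem_span_range_iff_exists_fun W.K).1 hb
  have hΔalg : W.push (diag X) (1 : W.H X) ∈ algSpan W (X.prod X) := by
    rw [← hcl]
    exact cl_mem_algSpan (ops.push_mem (diag X) X.V.fundCycle_mem hdim)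
  have hsum : ∑ ρ, c ρ • YY x ρ ∈ algSpan W (X.prod X) := by
    have h3 := Submodule.sub_mem _ hΔalg (AA_le ha)
    rwa [← hab, add_sub_cancel_left] at h3
  by_cases hc : c σ = 0
  · -- the eigenvector vanishes
    have h3 : x (cj σ) = 0 := by
      have h4 := W.corr_diag (1 : W.H X) (x (cj σ))
      rw [one_mul, ← hab, W.corr_add, LinearMap.add_apply, corr_AA h ha, zero_add] at h4
      rw [← h4]
      have h5 : ∀ s : Finset (K →+* W.K), W.corr (∑ ρ ∈ s, c ρ • YY x ρ) (x (cj σ)) =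
          ∑ ρ ∈ s, c ρ • W.corr (YY x ρ) (x (cj σ)) := by
        intro s
        induction s using Finset.induction_on with
        | empty => rw [Finset.sum_empty, Finset.sum_empty, W.corr_zero]; rfl
        | insert a s ha ih =>
          rw [Finset.sum_insert ha, Finset.sum_insert ha, W.corr_add, LinearMap.add_apply, ih,
            W.corr_smul, LinearMap.smul_apply]
      rw [h5]
      refine Finset.sum_eq_zero fun ρ _ => ?_
      by_cases hρ : ρ = σ
      · rw [hρ, hc, zero_smul]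
      · rw [corr_YY h (cj_ne' h (Ne.symm hρ)), smul_zero]
    rw [YY, h3, ext, map_zero, mul_zero]
    exact Submodule.zero_mem _
  · -- the graph of the Frobenius
    let f : X.prod X ⟶ X.prod X := lift (fst X X ≫ Φ.Fr X) (snd X X)
    let T : Module.End W.K (W.H (X.prod X)) := (W.map f).toLinearMap
    have hT : ∀ ρ, T (YY x ρ) = μ ρ • YY x ρ := by
      intro ρ
      change W.map f (W.map (fst X X) (x ρ) * W.map (snd X X) (x (cj ρ))) = _
      rw [map_mul, ← W.map_comp, ← W.map_comp, lift_fst, lift_snd, W.map_comp, h.eig, map_smul,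
        smul_mul_assoc]
      rfl
    have h3 := mem_of_sum T (algSpan W (X.prod X)) (fun v hv => algSpan_map f hv) μ Finset.univ
      (fun i _ j _ hij => R3 h hij) (fun ρ => c ρ • YY x ρ) (fun ρ _ => by
        rw [map_smul, hT, smul_comm]) hsum σ (Finset.mem_univ σ)
    exact (Submodule.smul_mem_iff _ hc).1 h3

omit h in
/-- the components of the algebraic classes -/
theorem mem_spanCycles {P : 𝒱.Obj} {n : ℕ} {c : W.H P} (hc : c ∈ algSpan W P)
    (hgr : c ∈ W.gr P (2 * n)) : c ∈ spanCycles W P n := by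
  rw [← proj_same (W.isInternal P) hgr]
  refine algSpan_induction (p := fun c => proj (W.isInternal P) (2 * n) c ∈ spanCycles W P n)
    ?_ ?_ ?_ ?_ hc
  · rw [map_zero]; exact Submodule.zero_mem _
  · intro a b ha hb
    rw [map_add]; exact Submodule.add_mem _ ha hb
  · intro t a ha
    rw [map_smul]; exact Submodule.smul_mem _ _ ha
  · intro j z hz
    by_cases hj : j = n
    · subst hj
      rw [proj_same _ (W.cl_mem hz)]
      exact Submodule.subset_span ⟨j, rfl, z, hz, rfl⟩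
    · rw [proj_ne _ (W.cl_mem hz) (by omega)]
      exact Submodule.zero_mem _

end facts

/-- **The Tate conjecture for the square of a variety with simple eigenvalues**, in the middle
codimension. -/
theorem tate_square (hX : HasSimpleWeilNumber Φ X e α) (hu : ∀ φ : K →+* ℂ, ‖φ α‖ = 1) :
    TateIn Φ (X.prod X) X.dim := by
  obtain ⟨x, μ, N, h⟩ := exists_sd hX hu
  rintro c ⟨hgr, s, hs, hc⟩
  have h1 : frob Φ (X.prod X) s c = (card Φ (X.prod X) s : W.K) ^ X.dim • c := by
    rw [card_pow]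
    exact hc
  refine mem_spanCycles ?_ hgr
  have h2 : AA W X ⊔ Submodule.span W.K (Set.range (YY x)) ≤ algSpan W (X.prod X) := by
    refine sup_le AA_le ?_
    rw [Submodule.span_le]
    rintro _ ⟨σ, rfl⟩
    exact claim2 h σ
  exact h2 (claim1 h hs h1)

/-- varieties with simple eigenvalues -/
theorem hasWeilNumber (hX : HasSimpleWeilNumber Φ X e α) (hu : ∀ φ : K →+* ℂ, ‖φ α‖ = 1) :
    HasWeilNumber Φ X e α where
  pos := hX.pos
  spanned := by
    obtain ⟨x, hx, hsp⟩ := hX.spanned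
    rw [eq_top_iff, ← hsp]
    refine sup_le_sup_left (Submodule.span_mono ?_) _
    rintro _ ⟨σ, rfl⟩
    exact ⟨σ, hx σ⟩
  tate := tate_square hX hu

end Pool.Agent.D0H1.DS
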