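import Pool.Agent.N179.TL.Wd

/-!
# Products of copies of varieties with Weil numbers, of any dimension, with properties depending on
# the field
-/

set_option autoImplicit false
set_option linter.unusedSectionVars false

open CategoryTheory AlgebraicGeometry NumberField
open scoped TensorProduct

universe u v

namespace Pool.Agent.D0H1.DS

open Pool.Agent.H914 Pool.Agent.H914.VarClass Pool.Agent.H914.VarClass.Obj
  Pool.Agent.H914.WeilCohomology Pool.Agent.H281R3.HT Pool.Agent.W552 Pool.Agent.W534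
  Pool.Agent.W458.RK Pool.Agent.W458.MF Pool.Agent.TH132.A Pool.Agent.W536.RR
  Pool.Agent.TH121.KT Pool.Agent.N179.TL

variable {k : Type u} [Field k] {𝒱 : VarClass k} {ops : CycleOps 𝒱}
  {W : WeilCohomology.{u, v} ops} {p : ℕ} [Fact p.Prime] {Φ : FrobSystem W p}
  {r : ℕ} {X : Fin r → 𝒱.Obj} {e : Fin r → ℕ} {K : Fin r → Type} [∀ i, Field (K i)]
  [∀ i, NumberField (K i)] [∀ i, IsCMField (K i)]
  {α : ∀ i, K i} {Z U : 𝒱.Obj}

/-- There are no relations, of degree at most `n i` in the conjugates of `α i`, with numbers `ν` which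
have the property `PP m` (Frobenius eigenvalues over the field with `p ^ m` elements), apart from the
trivial ones. -/
def NoRel (Φ : FrobSystem W p) (PP : ℕ → W.K → Prop) (X : Fin r → 𝒱.Obj) (e : Fin r → ℕ)
    (α : ∀ i, K i) (n : Fin r → ℕ) : Prop :=
  ∀ (m : ℕ) (ν : W.K), 0 < m → PP m ν → ∀ N' : ∀ i, (K i →+* W.K) → ℕ,
    (∀ i, ∑ σ : K i →+* W.K, N' i σ ≤ n i) → ∀ (B : ℤ) (N : ℕ), 0 < N →
    letterProd α (fun i => N * (m * ∏ j ∈ Finset.univ.erase i, (e j * Φ.e (X j)))) N' *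
      ν ^ (N * ∏ j, (e j * Φ.e (X j))) = (p : W.K) ^ B →
    ∀ i σ, N' i σ = N' i (cj σ)

/-- **The Tate conjecture for the products of copies of the `X i` with all varieties whose
Frobenius eigenvalues satisfy no relations with the `α i`.** -/
theorem tateTimesL_any [IsAlgClosed W.K] {PP : ℕ → W.K → Prop}
    (hT : ∀ i, HasWeilNumber Φ (X i) (e i) (α i)) (hu : ∀ i, ∀ φ : K i →+* ℂ, ‖φ (α i)‖ = 1)
    {n : Fin r → ℕ} (hZ : IsProductOfCopies W X n Z)
    (hrel : NoRel Φ PP X e α n) : TateTimesL Φ PP Z := by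
  classical
  intro s hs V _ _ _ G hG c a x hx
  have hp0 : (p : W.K) ≠ 0 := by exact_mod_cast (Fact.out : p.Prime).ne_zero
  have hQ : ∀ t, (card Φ Z t : W.K) ≠ 0 := fun t => card_ne Φ t
  refine (tensor_killed (F := frob Φ Z s) (G := G) (card Φ Z s : W.K) (hQ s) c
    (fun i => cycSub W Z i) (fun i y hy => cyc_killed Φ hy) ?_ a x).1 hx
  intro μ ν N hN hν hrelν
  refine le_trans ?_ algSpan_le_cyc
  intro y hy
  obtain ⟨t₀, ht₀, h0⟩ := span_good (span_words hT hZ y)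
  have h1 := h0 s hs
  set T := t₀ * s with hTdef
  have hTs : T = s * t₀ := mul_comm t₀ s
  have h2 : y ∈ Module.End.maxGenEigenspace (frob Φ Z T) (μ ^ t₀) := by
    rw [hTs, frob_mul_eq]
    exact gen_pow_of_gen hy _
  have heig : ∀ v ∈ GoodWords Φ X e α n Z T, ∃ (ω : W.K) (A M : ℕ) (L : List (Letter Φ X e α Z))
      (C : W.H Z), frob Φ Z T v = ω • v ∧ 0 < M ∧ C ∈ algSpan W Z ∧ v = wordVal L * C ∧
      (∀ i, ∑ σ : K i →+* W.K, mult L i σ ≤ n i) ∧
      ω ^ (2 * (∏ j, (e j * Φ.e (X j))) * M) = (card Φ Z T : W.K) ^ A *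
        letterProd α (expo Φ X e Z T M) (mult L) := by
    rintro v ⟨L, j, M, c, hM, hc, hn, hL, hcyc, rfl⟩
    obtain ⟨ω, A, h3, h4⟩ := word_eigen L hL
    refine ⟨ω * (card Φ Z T : W.K) ^ j, A + j * (2 * (∏ j, (e j * Φ.e (X j))) * M), M, L,
      W.cl Z c, ?_, hM, cl_mem_algSpan hc, rfl, hn, ?_⟩
    · rw [frob_mul_apply, h3, hcyc, smul_mul_smul_comm]
    · rw [mul_pow, h4, prod_letters, pow_add, ← pow_mul]
      ring
  have h3 := mem_span_gen (T := frob Φ Z T) (fun v hv => by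
    obtain ⟨ω, _, _, _, _, h, _⟩ := heig v hv
    exact ⟨ω, eig_mem_gen h⟩) h1 h2
  refine (Submodule.span_le (p := algSpan W Z)).2 ?_ h3
  rintro v ⟨hv, hvμ⟩
  by_cases hv0 : v = 0
  · rw [hv0]
    exact Submodule.zero_mem _
  obtain ⟨ω, A, M, Lw, C, h4, hM, hC, hvL, hn, h5⟩ := heig v hv
  have h6 : ω = μ ^ t₀ := eq_of_mem_gen (eig_mem_gen h4) hvμ hv0
  -- the relation
  let P : ℕ := ∏ j, (e j * Φ.e (X j))
  let m : ℕ := Φ.e Z * s
  have hm : 0 < m := Nat.mul_pos (Φ.e_pos Z) hs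
  let N₁ : ℕ := N * t₀ * 2 * M
  have hN₁ : 0 < N₁ := Nat.mul_pos (Nat.mul_pos (Nat.mul_pos hN ht₀) two_pos) hM
  have hcs : (card Φ Z s : W.K) = (p : W.K) ^ m := by
    rw [W534.card]
    push_cast
    rfl
  have hcT : (card Φ Z T : W.K) = (p : W.K) ^ (m * t₀) := by
    rw [W534.card]
    push_cast
    congr 1
    simp only [m, hTs]
    ring
  have hw : (fun i => N * expo Φ X e Z T M i) =
      fun i => N₁ * (m * ∏ j ∈ Finset.univ.erase i, (e j * Φ.e (X j))) := by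
    funext i
    simp only [expo, N₁, m, hTs]
    ring
  have h7 : letterProd α (fun i => N₁ * (m * ∏ j ∈ Finset.univ.erase i, (e j * Φ.e (X j))))
      (mult Lw) * ν ^ (N₁ * P) =
      (p : W.K) ^ (m * c * (N₁ * P : ℕ) - (m * t₀ * A * N : ℕ)) := by
    rw [← hw, ← letterProd_pow]
    have h8 : (μ * ν) ^ (N * (t₀ * (2 * P * M))) =
        ((card Φ Z s : W.K) ^ c) ^ (N * (t₀ * (2 * P * M))) := by
      rw [pow_mul, hrelν, ← pow_mul]
    have h9 : μ ^ (N * (t₀ * (2 * P * M))) = ((card Φ Z T : W.K) ^ A) ^ N *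
        letterProd α (expo Φ X e Z T M) (mult Lw) ^ N := by
      rw [← mul_pow, ← h5, h6, ← pow_mul, ← pow_mul]
      congr 1
      simp only [P]
      ring
    rw [mul_pow, h9] at h8
    have h10 : N * (t₀ * (2 * P * M)) = N₁ * P := by
      simp only [N₁]
      ring
    rw [h10] at h8
    have h11 : ((card Φ Z T : W.K) ^ A) ^ N ≠ 0 := pow_ne_zero _ (pow_ne_zero _ (hQ T))
    apply mul_left_cancel₀ h11
    rw [← mul_assoc, h8, hcs, hcT, ← pow_mul, ← pow_mul, ← zpow_natCast (p : W.K) m,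
      ← zpow_mul, ← zpow_natCast, ← zpow_mul, ← zpow_natCast (p : W.K), ← zpow_add₀ hp0]
    congr 1
    push_cast
    ring
  have hbal := hrel m ν hm (hG ν hν) (mult Lw) hn _ N₁ hN₁ h7
  rw [hvL]
  refine algSpan_mul (balanced_alg hT hu Lw.length Lw le_rfl ?_) hC
  rintro ⟨i, σ⟩
  have h12 := hbal i σ
  unfold mult at h12
  exact h12

end Pool.Agent.D0H1.DS
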