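import Pool.Agent.D0H1.DS.Ar
import Pool.Agent.D0H1.DS.Wd
import Pool.Agent.D0H1.DS.Sq

/-!
# The Tate conjecture for powers of varieties with a dominant slope
-/

set_option autoImplicit false
set_option linter.unusedSectionVars false

open CategoryTheory AlgebraicGeometry NumberField
open scoped TensorProduct

universe u v

namespace Pool.Agent.D0H1.DS

open Pool.Agent.H914 Pool.Agent.H914.VarClass Pool.Agent.H914.VarClass.Obj
  Pool.Agent.H914.WeilCohomology Pool.Agent.H281R3.HT Pool.Agent.W534 Pool.Agent.TH132.A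
  Pool.Agent.TH121.KT Pool.Agent.N179.TL Pool.Agent.Y138.KC

variable {k : Type u} [Field k] {𝒱 : VarClass k} {ops : CycleOps 𝒱}
  {W : WeilCohomology.{u, v} ops} {p : ℕ} [Fact p.Prime] {Φ : FrobSystem W p} {X Z : 𝒱.Obj}
  {ι : Qb →+* PadicAlgCl p} {e : ℕ} {K : Type} [Field K] [NumberField K] [IsCMField K] {α : K}

theorem copies_of_power {n : ℕ} (h : IsPower W X n Z) :
    IsProductOfCopies W (fun _ : Fin 1 => X) (fun _ => n) Z := by
  induction h with
  | alg h => exact IsProductOfCopies.alg h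
  | base =>
    have h1 := IsProductOfCopies.base (W := W) (X := fun _ : Fin 1 => X) 0
    convert h1 using 1
    funext i
    rw [Subsingleton.elim i 0, Pi.single_eq_same]
  | prod _ _ h1 h2 =>
    have h3 := IsProductOfCopies.prod h1 h2
    exact h3

theorem noRel [IsAlgClosed W.K] (hu : ∀ φ : K →+* ℂ, ‖φ α‖ = 1) (he : 0 < e) {n : ℕ} {ε : ℝ}
    (hgap : Dominates p (e * Φ.e X) ι α n ε) :
    NoRel Φ (fun m ν => PPn p ι K ε m ν) (fun _ : Fin 1 => X) (fun _ => e) (fun _ => α)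
      (fun _ => n) := by
  intro m ν hm hν N' hN' B N hN hrel i σ
  obtain rfl : i = 0 := Subsingleton.elim i 0
  refine narrow_core (ι := ι) hu (Nat.mul_pos he (Φ.e_pos X)) hgap hm hν (N' 0) (hN' 0) B hN ?_ σ
  rw [← hrel]
  unfold letterProd
  rw [Fin.prod_univ_one, Fin.prod_univ_one]
  congr 1
  refine Finset.prod_congr rfl fun σ _ => ?_
  congr 1
  have h1 : (Finset.univ : Finset (Fin 1)).erase 0 = ∅ := by decide
  beta_reduce
  rw [h1, Finset.prod_empty, mul_one]

/-- **The Tate conjecture for the powers of a variety with a dominant slope and their products with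
varieties with narrow slopes.** -/
theorem main [IsAlgClosed W.K] (hu : ∀ φ : K →+* ℂ, ‖φ α‖ = 1)
    (hX : HasWeilNumber Φ X e α ∨ HasSimpleWeilNumber Φ X e α) {n : ℕ} {ε : ℝ}
    (hgap : Dominates p (e * Φ.e X) ι α n ε) (hZ : IsPower W X n Z) :
    (∀ c, SemisimpleTateIn Φ Z c) ∧
    ∀ U : 𝒱.Obj, NarrowSlopes Φ ι K ε U → ∀ c,
      (TateIn Φ (Z.prod U) c ↔
        ∀ i ≤ c, (∃ x, Z.IsCyc i x ∧ ¬ HomEq W x 0) → TateIn Φ U (c - i)) ∧
      (SemisimpleTateIn Φ (Z.prod U) c ↔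
        ∀ i ≤ c, (∃ x, Z.IsCyc i x ∧ ¬ HomEq W x 0) → SemisimpleTateIn Φ U (c - i)) := by
  have hW : HasWeilNumber Φ X e α := hX.elim id fun h => hasWeilNumber h hu
  have hTT : TateTimesL Φ (fun m ν => PPn p ι K ε m ν) Z :=
    tateTimesL_any (X := fun _ : Fin 1 => X) (e := fun _ => e) (K := fun _ => K)
      (α := fun _ => α) (fun _ => hW) (fun _ => hu) (copies_of_power hZ)
      (noRel hu hW.pos hgap)
  obtain ⟨h1, h2⟩ := tateIn_prod_lev (Fact.out : p.Prime).one_lt hTT (fun m _ => PPn_one m)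
    (fun m ν n hn h => PPn_pow m ν n hn h)
  refine ⟨h1, fun U hU c => h2 U (fun ν hν => ?_) c⟩
  exact ⟨Φ.e U, 1, ν, one_pos, (mul_one _).symm, (pow_one ν).symm, hU ν hν⟩

end Pool.Agent.D0H1.DS
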