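import Mathlib

/-!
# The case of equality in the triangle inequality
-/

set_option autoImplicit false
set_option linter.unusedSectionVars false

namespace Pool.Agent.D0H1.DS

section

variable {Y : Type*} [Fintype Y] [DecidableEq Y] {Γ : Type*} [Group Γ] [Fintype Γ]
  [MulAction Γ Y] {c : Y → Y} (hc : ∀ y, c (c y) = y) (hcΓ : ∀ (γ : Γ) (y : Y), c (γ • y) = γ • c y)
  (htrans : ∀ y z : Y, ∃ γ : Γ, γ • y = z) {d : Y → ℝ} (hd : ∀ y, d (c y) = - d y) {y₁ : Y}
  (hdom : ∑ y, |d y| ≤ 4 * d y₁) {m : Y → ℝ} (hm : ∀ y, m (c y) = - m y)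
  (hrel : ∀ γ : Γ, ∑ y, m (γ • y) * d y = 0)

include hc hcΓ htrans hd hdom hm hrel in
/-- **A dominant value forces the relations.** -/
theorem l2_rigid (y : Y) (hy : 0 < d y) (hne : y ≠ y₁) (γ : Γ) : m (γ • y) = - m (γ • y₁) := by
  have hpos : 0 < d y₁ := by
    have h1 : |d y| ≤ ∑ y, |d y| :=
      Finset.single_le_sum (fun z _ => abs_nonneg (d z)) (Finset.mem_univ y)
    rw [abs_of_pos hy] at h1
    linarith
  let B : Y → ℝ := fun z => ∑ γ : Γ, m (γ • z) * m (γ • y₁)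
  let A : ℝ := ∑ γ : Γ, m (γ • y₁) ^ 2
  have hA : ∀ z, ∑ γ : Γ, m (γ • z) ^ 2 = A := by
    intro z
    obtain ⟨ρ, rfl⟩ := htrans y₁ z
    change _ = ∑ γ : Γ, m (γ • y₁) ^ 2
    refine Fintype.sum_equiv (Equiv.mulRight ρ) _ _ fun γ => ?_
    rw [Equiv.coe_mulRight, mul_smul]
  have hB1 : B y₁ = A := Finset.sum_congr rfl fun γ _ => (sq _).symm
  have hBc : ∀ z, B (c z) = - B z := by
    intro z
    change ∑ γ : Γ, m (γ • c z) * m (γ • y₁) = - ∑ γ : Γ, m (γ • z) * m (γ • y₁)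
    rw [← Finset.sum_neg_distrib]
    refine Finset.sum_congr rfl fun γ _ => ?_
    rw [← hcΓ, hm]
    ring
  have hplus : ∀ z, ∑ γ : Γ, (m (γ • z) + m (γ • y₁)) ^ 2 = 2 * A + 2 * B z := by
    intro z
    have h1 : ∀ γ : Γ, (m (γ • z) + m (γ • y₁)) ^ 2 = m (γ • z) ^ 2 + m (γ • y₁) ^ 2 +
        2 * (m (γ • z) * m (γ • y₁)) := by
      intro γ
      ring
    rw [Finset.sum_congr rfl fun γ _ => h1 γ, Finset.sum_add_distrib, Finset.sum_add_distrib,
      ← Finset.mul_sum, hA z]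
    change A + A + 2 * B z = _
    ring
  have hBle : ∀ z, - A ≤ B z := by
    intro z
    have h1 : 0 ≤ ∑ γ : Γ, (m (γ • z) + m (γ • y₁)) ^ 2 :=
      Finset.sum_nonneg fun γ _ => sq_nonneg _
    rw [hplus] at h1
    linarith
  have hBabs : ∀ z, |B z| ≤ A := by
    intro z
    rw [abs_le]
    refine ⟨hBle z, ?_⟩
    have h1 := hBle (c z)
    rw [hBc] at h1
    linarith
  have hsum : ∑ z, d z * B z = 0 := by
    have h1 : ∀ z, d z * B z = ∑ γ : Γ, m (γ • y₁) * (m (γ • z) * d z) := by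
      intro z
      change d z * ∑ γ : Γ, m (γ • z) * m (γ • y₁) = _
      rw [Finset.mul_sum]
      exact Finset.sum_congr rfl fun γ _ => by ring
    rw [Finset.sum_congr rfl fun z _ => h1 z, Finset.sum_comm]
    refine Finset.sum_eq_zero fun γ _ => ?_
    rw [← Finset.mul_sum, hrel γ, mul_zero]
  have hcy : c y₁ ≠ y₁ := by
    intro h
    have h1 := hd y₁
    rw [h] at h1
    linarith
  -- the sum over the other points
  let R := (Finset.univ.erase y₁).erase (c y₁)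
  have hcmem : c y₁ ∈ Finset.univ.erase y₁ := Finset.mem_erase.2 ⟨hcy, Finset.mem_univ _⟩
  have hsplit : ∀ f : Y → ℝ, ∑ z, f z = f y₁ + (f (c y₁) + ∑ z ∈ R, f z) := by
    intro f
    rw [← Finset.add_sum_erase _ _ (Finset.mem_univ y₁), ← Finset.add_sum_erase _ _ hcmem]
  have h1 : ∑ z ∈ R, (A * |d z| + d z * B z) ≤ 0 := by
    rw [hsplit] at hsum hdom
    rw [hd, hBc, hB1] at hsum
    rw [hd, abs_neg, abs_of_pos hpos] at hdom
    rw [Finset.sum_add_distrib, ← Finset.mul_sum]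
    have hA0 : 0 ≤ A := Finset.sum_nonneg fun γ _ => sq_nonneg _
    have h2 : ∑ z ∈ R, |d z| ≤ 2 * d y₁ := by linarith
    have h3 := mul_le_mul_of_nonneg_left h2 hA0
    linarith
  have h2 : ∀ z ∈ R, 0 ≤ A * |d z| + d z * B z := by
    intro z _
    have h3 : |d z * B z| ≤ A * |d z| := by
      rw [abs_mul, mul_comm]
      exact mul_le_mul_of_nonneg_right (hBabs z) (abs_nonneg _)
    have h4 := neg_abs_le (d z * B z)
    linarith
  have hyR : y ∈ R := by
    refine Finset.mem_erase.2 ⟨?_, Finset.mem_erase.2 ⟨hne, Finset.mem_univ _⟩⟩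
    rintro rfl
    rw [hd] at hy
    linarith
  have h3 : A * |d y| + d y * B y = 0 := by
    have h4 := Finset.single_le_sum h2 hyR
    have h5 := h2 y hyR
    linarith
  have h4 : B y = - A := by
    rw [abs_of_pos hy] at h3
    have h5 : d y * (A + B y) = 0 := by linarith
    have h6 := (mul_eq_zero.1 h5).resolve_left hy.ne'
    linarith
  have h5 := hplus y
  rw [h4] at h5
  have h6 : ∑ γ : Γ, (m (γ • y) + m (γ • y₁)) ^ 2 = 0 := by linarith
  have h7 := (Finset.sum_eq_zero_iff_of_nonneg fun γ _ => sq_nonneg _).1 h6 γ (Finset.mem_univ γ)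
  have h8 : m (γ • y) + m (γ • y₁) = 0 := by
    simpa using h7
  linarith

end

end Pool.Agent.D0H1.DS
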