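import Pool.Agent.D0H1.DS.Tight
import Pool.Agent.D0H1.DS.Cyc

/-!
# A number with a large prime has no relations
-/

set_option autoImplicit false
set_option linter.unusedSectionVars false

namespace Pool.Agent.D0H1.DS

open NumberField Polynomial Pool.Agent.TH121.KT Pool.Agent.N179.TL

noncomputable section

variable {K : Type} [Field K] [NumberField K]

/-- an automorphism of prime order of the normal closure -/
theorem exists_order {l : ℕ} (hl : l.Prime)
    (hdvd : l ∣ Module.finrank ℚ (IntermediateField.normalClosure ℚ K (AlgebraicClosure ℚ))) :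
    ∃ g : GQ, (∀ σ : K →+* Qb, act (g ^ l) σ = σ) ∧ ∃ σ : K →+* Qb, act g σ ≠ σ := by
  have hn : Normal ℚ Qb := inferInstance
  let L : IntermediateField ℚ Qb := IntermediateField.normalClosure ℚ K Qb
  have hL : Normal ℚ L := normalClosure.normal ℚ K Qb
  have hG : IsGalois ℚ L := ⟨⟩
  have hfd : FiniteDimensional ℚ L := normalClosure.is_finiteDimensional ℚ K Qb
  have hcard : Nat.card (L ≃ₐ[ℚ] L) = Module.finrank ℚ L := IsGalois.card_aut_eq_finrank ℚ L
  have hfact : Fact l.Prime := ⟨hl⟩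
  have hdvd' : l ∣ Nat.card (L ≃ₐ[ℚ] L) := by
    rw [hcard]
    exact hdvd
  obtain ⟨γ, hγ⟩ := exists_prime_orderOf_dvd_card' l hdvd'
  obtain ⟨g, hg⟩ := AlgEquiv.restrictNormalHom_surjective (F := ℚ) (K₁ := L) Qb γ
  have hmem : ∀ (σ : K →+* Qb) (x : K), σ x ∈ L := fun σ x =>
    (AlgHom.fieldRange_le_normalClosure (F := ℚ) (L := Qb) σ.toRatAlgHom) ⟨x, rfl⟩
  have hres : ∀ (h : GQ) (y : L), ((AlgEquiv.restrictNormalHom L h y : L) : Qb) = h y.1 := by
    intro h y
    exact AlgEquiv.restrictNormal_commutes h L y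
  refine ⟨g, ?_, ?_⟩
  · intro σ
    ext x
    change (g ^ l) (σ x) = σ x
    rw [← hres (g ^ l) ⟨σ x, hmem σ x⟩, map_pow, hg, ← hγ, pow_orderOf_eq_one]
    rfl
  · by_contra hcon
    push Not at hcon
    have hγ1 : γ = 1 := by
      have h1 : L ≤ IntermediateField.fixedField (Subgroup.zpowers g) := by
        refine iSup_le fun f => ?_
        rintro _ ⟨x, rfl⟩
        rw [IntermediateField.mem_fixedField_iff]
        intro h hh
        have h2 : g (f x) = f x := RingHom.congr_fun (hcon (f : K →+* Qb)) x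
        have h3 : Subgroup.zpowers g ≤ MulAction.stabilizer GQ (f x) := by
          rw [Subgroup.zpowers_le]
          exact h2
        exact h3 hh
      rw [← hg]
      ext y
      rw [hres]
      exact (IntermediateField.mem_fixedField_iff _ _).1 (h1 y.2) g (Subgroup.mem_zpowers g)
    rw [hγ1, orderOf_one] at hγ
    exact hl.one_lt.ne hγ

section cm

variable [IsCMField K]

/-- many equivalent embeddings: only two classes -/
theorem two_classes {R : Type*} [AddCommGroup R] [LinearOrder R] [IsOrderedAddMonoid R]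
    {m : (K →+* Qb) → R} (hm : ∀ y, m (cj y) = - m y) {z : K →+* Qb} (hz : m z ≠ 0) {l : ℕ}
    (hl : Module.finrank ℚ K < 4 * l) (T : Finset (K →+* Qb)) (hT : T.card = l) {y₀ : K →+* Qb}
    (hTe : ∀ y ∈ T, Eqv m y₀ y) (b : K →+* Qb) : Eqv m y₀ b ∨ Eqv m (cj y₀) b := by
  classical
  by_contra hcon
  push Not at hcon
  obtain ⟨h1, h2⟩ := hcon
  obtain ⟨k, hk⟩ := exists_act_eq y₀ b
  have hinj : Function.Injective (act k : (K →+* Qb) → (K →+* Qb)) := by
    intro x y hxy
    have h3 := congrArg (act k⁻¹) hxy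
    rwa [act_inv_act, act_inv_act] at h3
  have hk' : ∀ y ∈ T, Eqv m b (act k y) := by
    intro y hy
    rw [← hk]
    exact (hTe y hy).act k
  have h4 := four_card (l := l) cj cj_cj T (T.image (act k)) hT
    (by rw [Finset.card_image_of_injective _ hinj, hT]) ?_ ?_ ?_ ?_
  · rw [Embeddings.card] at h4
    omega
  · intro a ha ha'
    exact not_cj hm hz a ((hTe a ha).symm.trans (hTe _ ha'))
  · intro a ha ha'
    obtain ⟨y, hy, rfl⟩ := Finset.mem_image.1 ha
    obtain ⟨y', hy', he⟩ := Finset.mem_image.1 ha'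
    refine not_cj hm hz (act k y) ?_
    rw [← he]
    exact (hk' y hy).symm.trans (hk' y' hy')
  · intro a ha ha'
    obtain ⟨y, hy, he⟩ := Finset.mem_image.1 ha'
    apply h1
    have h5 := hk' y hy
    rw [he] at h5
    exact (hTe a ha).trans h5.symm
  · intro a ha ha'
    obtain ⟨y, hy, he⟩ := Finset.mem_image.1 ha'
    apply h2
    have h5 := hk' y hy
    rw [he] at h5
    exact ((hTe a ha).cj hm).trans h5.symm

/-- two classes: the subfield is quadratic -/
theorem finrank_two {R : Type*} [AddCommGroup R] [LinearOrder R] [IsOrderedAddMonoid R]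
    {m : (K →+* Qb) → R} (hm : ∀ y, m (cj y) = - m y) {z : K →+* Qb} (hz : m z ≠ 0)
    {y₀ : K →+* Qb} (h : ∀ b, Eqv m y₀ b ∨ Eqv m (cj y₀) b) : Module.finrank ℚ (fldE m) = 2 := by
  classical
  rw [← Embeddings.card (fldE m) Qb]
  let r : (K →+* Qb) → (fldE m →+* Qb) := fun σ => σ.comp (algebraMap (fldE m) K)
  have hr : ∀ a b : K →+* Qb, r a = r b ↔ Eqv m a b := by
    intro a b
    rw [← fibre]
    constructor
    · intro h x hx
      exact (RingHom.congr_fun h ⟨x, hx⟩).symm
    · intro h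
      ext x
      exact (h x.1 x.2).symm
  have huniv : (Finset.univ : Finset (fldE m →+* Qb)) = {r y₀, r (cj y₀)} := by
    ext τ
    obtain ⟨b, rfl⟩ := exists_extend (fldE m) τ
    simp only [Finset.mem_univ, Finset.mem_insert, Finset.mem_singleton, true_iff]
    rcases h b with h1 | h1
    · left
      exact ((hr _ _).2 h1).symm
    · right
      exact ((hr _ _).2 h1).symm
  rw [← Finset.card_univ, huniv, Finset.card_pair]
  intro h1
  exact not_cj hm hz y₀ ((hr _ _).1 h1)

variable {p : ℕ} [Fact p.Prime] {ι : Qb →+* PadicAlgCl p} {α : K}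

/-- **A number with a large prime has no relations at all.** -/
theorem large_prime (hu : ∀ φ : K →+* ℂ, ‖φ α‖ = 1) {a : ℕ} (ha : 0 < a)
    (ht : HasLargePrime p a ι α) {N : (K →+* Qb) → ℕ} {σ₀ : K →+* Qb} (hσ₀ : N σ₀ ≠ N (cj σ₀)) :
    ∃ g : GQ, FF ι α N g ≠ 0 := by
  classical
  by_contra hcon
  push Not at hcon
  have hp : (1 : ℝ) < p := by exact_mod_cast (Fact.out : p.Prime).one_lt
  have hcp : 0 < (a : ℝ) * Real.log p :=
    mul_pos (by exact_mod_cast ha) (Real.log_pos hp)
  obtain ⟨l, s, c, σ₁, hl, hl2, hlK, hdvd, hσ₁, hF⟩ := ht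
  let d : (K →+* Qb) → ℝ := fun σ => slopeSum p a ι α s c σ
  have hd : ∀ σ, d (cj σ) = - d σ := by
    intro σ
    change slopeSum p a ι α s c (cj σ) = - slopeSum p a ι α s c σ
    unfold slopeSum
    rw [← Finset.sum_neg_distrib]
    refine Finset.sum_congr rfl fun h _ => ?_
    have h1 : ‖ι (h (cj σ α))‖ = ‖ι (h (σ α))‖⁻¹ := cj_norm (ι := ι) hu (act h σ)
    rw [slope_eq, slope_eq, h1, Real.log_inv]
    ring
  -- the odd function
  let m : (K →+* Qb) → ℤ := fun y => (N y : ℤ) - N (cj y)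
  have hm : ∀ y, m (cj y) = - m y := by
    intro y
    change (N (cj y) : ℤ) - N (cj (cj y)) = -((N y : ℤ) - N (cj y))
    rw [cj_cj]
    ring
  have hm₀ : m σ₀ ≠ 0 := by
    intro h
    have h1 : (N σ₀ : ℤ) - N (cj σ₀) = 0 := h
    omega
  -- the relations
  have hN : ∀ g : GQ, ∑ y, (N (act g y) : ℝ) * d y = 0 := by
    intro g
    have h1 : ∀ h : GQ, ∑ y, (N (act g y) : ℝ) * Real.log ‖ι (h (y α))‖ = 0 := by
      intro h
      rw [← hcon (h * g⁻¹)]
      unfold FF
      refine Fintype.sum_equiv ⟨act g, act g⁻¹, act_inv_act g, act_act_inv g⟩ _ _ fun y => ?_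
      change (N (act g y) : ℝ) * Real.log ‖ι (h (y α))‖ =
        (N (act g y) : ℝ) * Real.log ‖ι (h (act g⁻¹ (act g y) α))‖
      rw [act_inv_act]
    have h2 : ∀ y, (N (act g y) : ℝ) * d y =
        ∑ h ∈ s, -(c h / (a * Real.log p)) * ((N (act g y) : ℝ) * Real.log ‖ι (h (y α))‖) := by
      intro y
      change (N (act g y) : ℝ) * slopeSum p a ι α s c y = _
      unfold slopeSum
      rw [Finset.mul_sum]
      refine Finset.sum_congr rfl fun h _ => ?_
      rw [slope_eq]
      ring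
    rw [Finset.sum_congr rfl fun y _ => h2 y, Finset.sum_comm]
    refine Finset.sum_eq_zero fun h _ => ?_
    rw [← Finset.mul_sum, h1, mul_zero]
  have hrel : ∀ g : GQ, ∑ y, (m (act g y) : ℝ) * d y = 0 := by
    intro g
    have h1 : ∑ y, (N (cj (act g y)) : ℝ) * d y = 0 := by
      have h2 : ∑ y, (N (cj (act g y)) : ℝ) * d y = - ∑ y, (N (act g y) : ℝ) * d y := by
        rw [← Finset.sum_neg_distrib]
        refine Fintype.sum_equiv ⟨cj, cj, cj_cj, cj_cj⟩ _ _ fun y => ?_
        change (N (cj (act g y)) : ℝ) * d y = -((N (act g (cj y)) : ℝ) * d (cj y))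
        rw [hd, act_cj]
        ring
      rw [h2, hN, neg_zero]
    have h3 : ∀ y, (m (act g y) : ℝ) * d y =
        (N (act g y) : ℝ) * d y - (N (cj (act g y)) : ℝ) * d y := by
      intro y
      simp only [m]
      push_cast
      ring
    rw [Finset.sum_congr rfl fun y _ => h3 y, Finset.sum_sub_distrib, hN, h1, sub_zero]
  -- the cycle
  obtain ⟨g, hgl, y₁, hy₁⟩ := exists_order (K := K) hl hdvd
  let π : Equiv.Perm (K →+* Qb) := actHom K g
  have hπ1 : ∀ (i : ℕ) (y : K →+* Qb), (π ^ i) y = act (g ^ i) y := by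
    intro i y
    change (actHom K g ^ i) y = act (g ^ i) y
    rw [← map_pow]
    rfl
  have hπ : π ^ l = 1 := by
    ext1 y
    rw [hπ1, hgl]
    rfl
  have hcy : ∀ y : K →+* Qb, cj y ≠ y := by
    intro y hy
    refine not_cj hm hm₀ y ?_
    rw [hy]
    exact Eqv.refl y
  have hcard : Fintype.card (K →+* Qb) < 4 * l := by
    rw [Embeddings.card]
    exact hlK
  have hl3 : l ≠ 2 := by omega
  have hcyc : (cyc π l y₁).card = l := card_cyc hl hπ hy₁
  -- a conjugate for which the slopes are not constant on the cycle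
  obtain ⟨h, j, hj, hne⟩ : ∃ (h : GQ) (j : ℕ), j < l ∧ d (act h (act (g ^ j) y₁)) ≠ d (act h y₁) := by
    by_contra hcon2
    push Not at hcon2
    have h2 : ∀ b, Eqv d y₁ b ∨ Eqv d (cj y₁) b := two_classes hd hσ₁ hlK (cyc π l y₁) hcyc (by
      intro y hy h
      obtain ⟨i, hi, rfl⟩ := mem_cyc.1 hy
      rw [hπ1]
      exact (hcon2 h i hi).symm)
    obtain ⟨-, σ, σ', hσ, hσ'⟩ := hF (fldE d) (finrank_two hd hσ₁ h2) (isCM_fldE hd hσ₁)
    apply hσ'
    have h3 : Eqv d σ σ' := by
      rw [← fibre]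
      intro x hx
      exact (RingHom.congr_fun hσ ⟨x, hx⟩).symm
    exact h3 1
  -- the multiplicities are constant on the cycle
  have hM : ∀ (k : GQ) (i : ℕ), i < l → m (act k (act (g ^ i) y₁)) = m (act k y₁) := by
    intro k
    have h1 := const_or_const hl hl3 hcard hπ (c := cj) cj_cj hcy (fun y => rfl) hy₁
      (fun y => m (act k y)) (fun y => d (act h y)) (fun y => by rw [act_cj, hm])
      (fun y => by rw [act_cj, hd]) (by
        intro i
        rw [← hrel (k * g ^ i * h⁻¹)]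
        refine Fintype.sum_equiv ⟨act h, act h⁻¹, act_inv_act h, act_act_inv h⟩ _ _ fun y => ?_
        change (m (act k ((π ^ i) y)) : ℝ) * d (act h y) =
          (m (act (k * g ^ i * h⁻¹) (act h y)) : ℝ) * d (act h y)
        rw [act_mul, act_inv_act, act_mul, hπ1])
    rcases h1 with h1 | h1
    · intro i hi
      have h2 := h1 i hi
      rw [hπ1] at h2
      exact h2
    · exfalso
      have h2 := h1 j hj
      rw [hπ1] at h2
      exact hne h2
  have hB : ∀ b, Eqv m y₁ b ∨ Eqv m (cj y₁) b := two_classes hm hm₀ hlK (cyc π l y₁) hcyc (by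
    intro y hy k
    obtain ⟨i, hi, rfl⟩ := mem_cyc.1 hy
    rw [hπ1]
    exact (hM k i hi).symm)
  -- the sums over the classes
  let S : (K →+* Qb) → ℝ := fun b => ∑ y, if Eqv m b y then d y else 0
  have hScj : S (cj y₁) = - S y₁ := by
    change ∑ y, (if Eqv m (cj y₁) y then d y else 0) = - ∑ y, (if Eqv m y₁ y then d y else 0)
    rw [← Finset.sum_neg_distrib]
    refine Fintype.sum_equiv ⟨cj, cj, cj_cj, cj_cj⟩ _ _ fun y => ?_
    change (if Eqv m (cj y₁) y then d y else 0) = -(if Eqv m y₁ (cj y) then d (cj y) else 0)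
    have h1 : Eqv m (cj y₁) y ↔ Eqv m y₁ (cj y) := by
      constructor
      · intro h
        have h2 := h.cj hm
        rwa [cj_cj] at h2
      · intro h
        have h2 := h.cj hm
        rwa [cj_cj] at h2
    by_cases h2 : Eqv m (cj y₁) y
    · rw [if_pos h2, if_pos (h1.1 h2), hd, neg_neg]
    · rw [if_neg h2, if_neg (fun h => h2 (h1.2 h)), neg_zero]
  have hS₁ : S y₁ = 0 := by
    obtain ⟨g₀, hg₀⟩ := exists_act_eq y₁ σ₀
    have h1 : ∀ y, (m (act g₀ y) : ℝ) * d y = (m σ₀ : ℝ) * (if Eqv m y₁ y then d y else 0) -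
        (m σ₀ : ℝ) * (if Eqv m (cj y₁) y then d y else 0) := by
      intro y
      by_cases h2 : Eqv m y₁ y
      · have h3 : ¬ Eqv m (cj y₁) y := fun h => not_cj hm hm₀ y₁ (h2.trans h.symm)
        rw [if_pos h2, if_neg h3, mul_zero, sub_zero, ← h2 g₀, hg₀]
      · rw [if_neg h2]
        have h3 := (hB y).resolve_left h2
        rw [if_pos h3, ← h3 g₀, act_cj, hg₀, hm]
        push_cast
        ring
    have h2 := hrel g₀
    rw [Finset.sum_congr rfl fun y _ => h1 y, Finset.sum_sub_distrib, ← Finset.mul_sum,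
      ← Finset.mul_sum] at h2
    change (m σ₀ : ℝ) * S y₁ - (m σ₀ : ℝ) * S (cj y₁) = 0 at h2
    rw [hScj] at h2
    have h3 : (m σ₀ : ℝ) * (2 * S y₁) = 0 := by linarith
    have h4 := (mul_eq_zero.1 h3).resolve_left (by exact_mod_cast hm₀)
    linarith
  have hScongr : ∀ b b', Eqv m b b' → S b = S b' := by
    intro b b' h
    refine Finset.sum_congr rfl fun y _ => ?_
    by_cases h2 : Eqv m b y
    · rw [if_pos h2, if_pos (h.symm.trans h2)]
    · rw [if_neg h2, if_neg (fun h3 => h2 (h.trans h3))]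
  have hS : ∀ b, S b = 0 := by
    intro b
    rcases hB b with h2 | h2
    · rw [← hScongr _ _ h2, hS₁]
    · rw [← hScongr _ _ h2, hScj, hS₁, neg_zero]
  obtain ⟨⟨τ, hτ⟩, -⟩ := hF (fldE m) (finrank_two hm hm₀ hB) (isCM_fldE hm hm₀)
  apply hτ
  obtain ⟨b, hb⟩ := exists_extend (fldE m) τ
  rw [slopeSum_norm (alpha_ne hu)]
  rw [← hS b, Finset.sum_filter]
  refine Finset.sum_congr rfl fun y _ => ?_
  have h1 : y.comp (algebraMap (fldE m) K) = τ ↔ Eqv m b y := by
    rw [← fibre, ← hb]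
    constructor
    · intro h x hx
      exact RingHom.congr_fun h ⟨x, hx⟩
    · intro h
      ext x
      exact h x.1 x.2
  by_cases h2 : Eqv m b y
  · rw [if_pos h2, if_pos (h1.2 h2)]
  · rw [if_neg h2, if_neg (fun h => h2 (h1.1 h))]

end cm

end

end Pool.Agent.D0H1.DS
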