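import Pool.Agent.D0H1.DS.LTwo
import Pool.Agent.D0H1.DS.Cls
import Pool.Agent.D0H1.DS.Core

/-!
# A number with a tight slope has no relations
-/

set_option autoImplicit false
set_option linter.unusedSectionVars false

namespace Pool.Agent.D0H1.DS

open NumberField Polynomial Pool.Agent.TH121.KT Pool.Agent.N179.TL

noncomputable section

section act

variable (K : Type) [Field K] [NumberField K]

/-- the action on the embeddings -/
def actHom : GQ →* Equiv.Perm (K →+* Qb) where
  toFun g := ⟨act g, act g⁻¹, act_inv_act g, act_act_inv g⟩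
  map_one' := by
    ext σ x
    rfl
  map_mul' g h := by
    ext σ x
    rfl

theorem actHom_apply (g : GQ) (σ : K →+* Qb) : actHom K g σ = act g σ := rfl

end act

variable {K : Type} [Field K] [NumberField K] {p : ℕ} [Fact p.Prime]
  {ι : Qb →+* PadicAlgCl p} {α : K}

/-- the sum over the embeddings which extend an embedding of a subfield -/
theorem slopeSum_norm (hα : α ≠ 0) (a : ℕ) (s : Finset GQ) (c : GQ → ℝ)
    (F : IntermediateField ℚ K) (τ : F →+* Qb) [DecidableEq (F →+* Qb)] :
    slopeSum p a ι (Algebra.norm F α) s c τ =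
      ∑ σ ∈ Finset.univ.filter (fun σ : K →+* Qb => σ.comp (algebraMap F K) = τ),
        slopeSum p a ι α s c σ := by
  classical
  let _ : Algebra F Qb := τ.toAlgebra
  have h1 : τ (Algebra.norm F α) = ∏ f : K →ₐ[F] Qb, f α :=
    Algebra.norm_eq_prod_embeddings F Qb α
  have h2 : ∀ g : GQ, slopeAt p a (ι (g (τ (Algebra.norm F α)))) =
      ∑ σ ∈ Finset.univ.filter (fun σ : K →+* Qb => σ.comp (algebraMap F K) = τ),
        slopeAt p a (ι (g (σ α))) := by
    intro g
    rw [h1, map_prod, map_prod, slope_eq, norm_prod, Real.log_prod, Finset.sum_div,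
      ← Finset.sum_neg_distrib]
    · refine Finset.sum_bij (fun f _ => (f : K →+* Qb)) ?_ ?_ ?_ ?_
      · intro f _
        rw [Finset.mem_filter]
        refine ⟨Finset.mem_univ _, ?_⟩
        ext x
        exact f.commutes x
      · intro f _ f' _ h
        ext x
        exact RingHom.congr_fun h x
      · intro σ hσ
        rw [Finset.mem_filter] at hσ
        refine ⟨{ σ with commutes' := fun x => RingHom.congr_fun hσ.2 x }, Finset.mem_univ _, ?_⟩
        rfl
      · intro f _
        rw [slope_eq]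
        rfl
    · intro f _
      rw [norm_ne_zero_iff, ne_eq, map_eq_zero, map_eq_zero, map_eq_zero]
      exact hα
  unfold slopeSum
  rw [Finset.sum_comm]
  refine Finset.sum_congr rfl fun g _ => ?_
  rw [h2, Finset.mul_sum]

/-- every embedding extends -/
theorem exists_extend (F : IntermediateField ℚ K) (τ : F →+* Qb) :
    ∃ b : K →+* Qb, b.comp (algebraMap F K) = τ := by
  let _ : Algebra F Qb := τ.toAlgebra
  let f : K →ₐ[F] Qb := IsAlgClosed.lift
  refine ⟨f, ?_⟩
  ext x
  exact f.commutes x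

variable [IsCMField K]

/-- **A number with a tight slope has no relations at all.** -/
theorem tight_large (hu : ∀ φ : K →+* ℂ, ‖φ α‖ = 1) {a : ℕ} (ha : 0 < a)
    (ht : HasTightSlope p a ι α) {N : (K →+* Qb) → ℕ} {σ₀ : K →+* Qb} (hσ₀ : N σ₀ ≠ N (cj σ₀)) :
    ∃ g : GQ, FF ι α N g ≠ 0 := by
  classical
  by_contra hcon
  push Not at hcon
  have hp : (1 : ℝ) < p := by exact_mod_cast (Fact.out : p.Prime).one_lt
  have hcp : 0 < (a : ℝ) * Real.log p :=
    mul_pos (by exact_mod_cast ha) (Real.log_pos hp)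
  obtain ⟨s, c, σ₁, hσ₁, hdom, hF⟩ := ht
  let d : (K →+* Qb) → ℝ := fun σ => slopeSum p a ι α s c σ
  have hd : ∀ σ, d (cj σ) = - d σ := by
    intro σ
    change slopeSum p a ι α s c (cj σ) = - slopeSum p a ι α s c σ
    unfold slopeSum
    rw [← Finset.sum_neg_distrib]
    refine Finset.sum_congr rfl fun h _ => ?_
    have h1 : ‖ι (h (cj σ α))‖ = ‖ι (h (σ α))‖⁻¹ := cj_norm (ι := ι) hu (act h σ)
    rw [slope_eq, slope_eq, h1, Real.log_inv]
    ring
  obtain ⟨y₁, hy₁, hdom₁⟩ : ∃ y₁, 0 < d y₁ ∧ ∑ y, |d y| ≤ 4 * d y₁ := by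
    rcases lt_or_gt_of_ne hσ₁ with h | h
    · refine ⟨cj σ₁, ?_, ?_⟩
      · rw [hd]
        exact neg_pos.2 h
      · rw [hd]
        rw [abs_of_neg h] at hdom
        exact hdom
    · refine ⟨σ₁, h, ?_⟩
      rw [abs_of_pos h] at hdom
      exact hdom
  -- the odd function
  let m : (K →+* Qb) → ℤ := fun y => (N y : ℤ) - N (cj y)
  have hm : ∀ y, m (cj y) = - m y := by
    intro y
    change (N (cj y) : ℤ) - N (cj (cj y)) = -((N y : ℤ) - N (cj y))
    rw [cj_cj]
    ring
  have hm₀ : m σ₀ ≠ 0 := by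
    intro h
    have h1 : (N σ₀ : ℤ) - N (cj σ₀) = 0 := h
    omega
  -- the relations
  have hN : ∀ g : GQ, ∑ y, (N (act g y) : ℝ) * d y = 0 := by
    intro g
    have h1 : ∀ h : GQ, ∑ y, (N (act g y) : ℝ) * Real.log ‖ι (h (y α))‖ = 0 := by
      intro h
      rw [← hcon (h * g⁻¹)]
      unfold FF
      refine Fintype.sum_equiv ⟨act g, act g⁻¹, act_inv_act g, act_act_inv g⟩ _ _ fun y => ?_
      change (N (act g y) : ℝ) * Real.log ‖ι (h (y α))‖ =
        (N (act g y) : ℝ) * Real.log ‖ι (h (act g⁻¹ (act g y) α))‖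
      rw [act_inv_act]
    have h2 : ∀ y, (N (act g y) : ℝ) * d y =
        ∑ h ∈ s, -(c h / (a * Real.log p)) * ((N (act g y) : ℝ) * Real.log ‖ι (h (y α))‖) := by
      intro y
      change (N (act g y) : ℝ) * slopeSum p a ι α s c y = _
      unfold slopeSum
      rw [Finset.mul_sum]
      refine Finset.sum_congr rfl fun h _ => ?_
      rw [slope_eq]
      ring
    rw [Finset.sum_congr rfl fun y _ => h2 y, Finset.sum_comm]
    refine Finset.sum_eq_zero fun h _ => ?_
    rw [← Finset.mul_sum, h1, mul_zero]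
  have hrel : ∀ g : GQ, ∑ y, (m (act g y) : ℝ) * d y = 0 := by
    intro g
    have h1 : ∑ y, (N (cj (act g y)) : ℝ) * d y = 0 := by
      have h2 : ∑ y, (N (cj (act g y)) : ℝ) * d y = - ∑ y, (N (act g y) : ℝ) * d y := by
        rw [← Finset.sum_neg_distrib]
        refine Fintype.sum_equiv ⟨cj, cj, cj_cj, cj_cj⟩ _ _ fun y => ?_
        change (N (cj (act g y)) : ℝ) * d y = -((N (act g (cj y)) : ℝ) * d (cj y))
        rw [hd, act_cj]
        ring
      rw [h2, hN, neg_zero]
    have h3 : ∀ y, (m (act g y) : ℝ) * d y =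
        (N (act g y) : ℝ) * d y - (N (cj (act g y)) : ℝ) * d y := by
      intro y
      simp only [m]
      push_cast
      ring
    rw [Finset.sum_congr rfl fun y _ => h3 y, Finset.sum_sub_distrib, hN, h1, sub_zero]
  -- the embeddings with a positive value
  have hA : ∀ y, 0 < d y → y ≠ y₁ → Eqv m y (cj y₁) := by
    intro y hy hne g
    have h1 := l2_rigid (Γ := (actHom K).range) (c := cj) (d := d) (y₁ := y₁)
      (m := fun y => (m y : ℝ)) cj_cj ?_ ?_ hd hdom₁ ?_ ?_ y hy hne
      ⟨actHom K g, ⟨g, rfl⟩⟩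
    · have h2 : (m (act g y) : ℝ) = -(m (act g y₁) : ℝ) := h1
      rw [act_cj, hm]
      exact_mod_cast h2
    · rintro ⟨_, g', rfl⟩ z
      rfl
    · intro z w
      obtain ⟨g', hg'⟩ := exists_act_eq z w
      exact ⟨⟨actHom K g', ⟨g', rfl⟩⟩, hg'⟩
    · intro z
      rw [hm]
      push_cast
      rfl
    · rintro ⟨_, g', rfl⟩
      exact hrel g'
  have hB : ∀ y, d y ≠ 0 → Eqv m y₁ y ∨ Eqv m (cj y₁) y := by
    intro y hy
    rcases lt_or_gt_of_ne hy with h | h
    · have h1 : 0 < d (cj y) := by rw [hd]; exact neg_pos.2 h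
      by_cases h2 : cj y = y₁
      · right
        rw [← h2, cj_cj]
        exact Eqv.refl _
      · left
        have h3 := (hA _ h1 h2).cj hm
        rw [cj_cj, cj_cj] at h3
        exact h3.symm
    · by_cases h2 : y = y₁
      · left
        rw [h2]
        exact Eqv.refl _
      · right
        exact (hA y h h2).symm
  -- the sums over the classes
  let S : (K →+* Qb) → ℝ := fun b => ∑ y, if Eqv m b y then d y else 0
  have hScj : S (cj y₁) = - S y₁ := by
    change ∑ y, (if Eqv m (cj y₁) y then d y else 0) = - ∑ y, (if Eqv m y₁ y then d y else 0)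
    rw [← Finset.sum_neg_distrib]
    refine Fintype.sum_equiv ⟨cj, cj, cj_cj, cj_cj⟩ _ _ fun y => ?_
    change (if Eqv m (cj y₁) y then d y else 0) = -(if Eqv m y₁ (cj y) then d (cj y) else 0)
    have h1 : Eqv m (cj y₁) y ↔ Eqv m y₁ (cj y) := by
      constructor
      · intro h
        have h2 := h.cj hm
        rwa [cj_cj] at h2
      · intro h
        have h2 := h.cj hm
        rwa [cj_cj] at h2
    by_cases h2 : Eqv m (cj y₁) y
    · rw [if_pos h2, if_pos (h1.1 h2), hd, neg_neg]
    · rw [if_neg h2, if_neg (fun h => h2 (h1.2 h)), neg_zero]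
  have hS₁ : S y₁ = 0 := by
    obtain ⟨g₀, hg₀⟩ := exists_act_eq y₁ σ₀
    have h1 : ∀ y, (m (act g₀ y) : ℝ) * d y = (m σ₀ : ℝ) * (if Eqv m y₁ y then d y else 0) -
        (m σ₀ : ℝ) * (if Eqv m (cj y₁) y then d y else 0) := by
      intro y
      by_cases h2 : Eqv m y₁ y
      · have h3 : ¬ Eqv m (cj y₁) y := fun h => not_cj hm hm₀ y₁ (h2.trans h.symm)
        rw [if_pos h2, if_neg h3, mul_zero, sub_zero, ← h2 g₀, hg₀]
      · rw [if_neg h2]
        by_cases h3 : Eqv m (cj y₁) y
        · rw [if_pos h3, ← h3 g₀, act_cj, hg₀, hm]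
          push_cast
          ring
        · rw [if_neg h3]
          have h4 : d y = 0 := by
            by_contra h5
            rcases hB y h5 with h | h
            · exact h2 h
            · exact h3 h
          rw [h4]
          ring
    have h2 := hrel g₀
    rw [Finset.sum_congr rfl fun y _ => h1 y, Finset.sum_sub_distrib, ← Finset.mul_sum,
      ← Finset.mul_sum] at h2
    change (m σ₀ : ℝ) * S y₁ - (m σ₀ : ℝ) * S (cj y₁) = 0 at h2
    rw [hScj] at h2
    have h3 : (m σ₀ : ℝ) * (2 * S y₁) = 0 := by linarith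
    have h4 := (mul_eq_zero.1 h3).resolve_left (by exact_mod_cast hm₀)
    linarith
  have hScongr : ∀ b b', Eqv m b b' → S b = S b' := by
    intro b b' h
    refine Finset.sum_congr rfl fun y _ => ?_
    by_cases h2 : Eqv m b y
    · rw [if_pos h2, if_pos (h.symm.trans h2)]
    · rw [if_neg h2, if_neg (fun h3 => h2 (h.trans h3))]
  have hS : ∀ b, S b = 0 := by
    intro b
    by_cases h2 : Eqv m y₁ b
    · rw [← hScongr _ _ h2, hS₁]
    by_cases h3 : Eqv m (cj y₁) b
    · rw [← hScongr _ _ h3, hScj, hS₁, neg_zero]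
    refine Finset.sum_eq_zero fun y _ => ?_
    by_cases h4 : Eqv m b y
    · rw [if_pos h4]
      by_contra h5
      rcases hB y h5 with h | h
      · exact h2 (h.trans h4.symm)
      · exact h3 (h.trans h4.symm)
    · rw [if_neg h4]
  have hFne : fldE m ≠ ⊤ := by
    intro htop
    have h1 : ∀ y, Eqv m y₁ y → y = y₁ := by
      intro y hy
      ext x
      exact (fibre y₁ y).2 hy x (by rw [htop]; exact IntermediateField.mem_top)
    have h2 : S y₁ = d y₁ := by
      change ∑ y, (if Eqv m y₁ y then d y else 0) = _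
      rw [Finset.sum_eq_single y₁]
      · rw [if_pos (Eqv.refl _)]
      · intro y _ hy
        rw [if_neg fun h => hy (h1 y h)]
      · intro h
        exact absurd (Finset.mem_univ _) h
    rw [hS] at h2
    linarith
  obtain ⟨τ, hτ⟩ := hF (fldE m) hFne (isCM_fldE hm hm₀)
  apply hτ
  obtain ⟨b, hb⟩ := exists_extend (fldE m) τ
  rw [slopeSum_norm (alpha_ne hu)]
  rw [← hS b, Finset.sum_filter]
  refine Finset.sum_congr rfl fun y _ => ?_
  have h1 : y.comp (algebraMap (fldE m) K) = τ ↔ Eqv m b y := by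
    rw [← fibre, ← hb]
    constructor
    · intro h x hx
      exact RingHom.congr_fun h ⟨x, hx⟩
    · intro h
      ext x
      exact h x.1 x.2
  by_cases h2 : Eqv m b y
  · rw [if_pos h2, if_pos (h1.2 h2)]
  · rw [if_neg h2, if_neg (fun h => h2 (h1.1 h))]

end

end Pool.Agent.D0H1.DS
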